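import Pool.Agent.H42.K2.Defs

/-! MP_1f2761, k = 2: analysis rows (page P2761_est84.md). Definitions `ex fe omT omd omh nrm Reg` are
those of helper42 (Pool/Agent/H42/K2/Defs.lean). -/


namespace Pool.FD
open Finset Pool.K2 MeasureTheory

/-- digit string of a real number modulo `T` -/
noncomputable def fl (T : ℕ) (x : ℝ) : ℕ := (⌊x⌋ % (T:ℤ)).toNat
/-- index of the cell of side `1/K` which contains `x` modulo one -/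
noncomputable def ix (K : ℕ) (x : ℝ) : ℕ := fl K (K * x)
/-- open box of frequencies -/
noncomputable def bx (K : ℕ) : Finset (ℤ × ℤ) := Ioo (-(K:ℤ)) K ×ˢ Ioo (-(K:ℤ)) K
noncomputable def bx0 (K : ℕ) : Finset (ℤ × ℤ) := (bx K).filter fun k => k ≠ 0
/-- sup norm of a frequency -/
noncomputable def nm (m : ℤ × ℤ) : ℝ := max |(m.1:ℝ)| |(m.2:ℝ)|
/-- trigonometric polynomial -/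
noncomputable def tp (K : ℕ) (c : ℤ × ℤ → ℂ) (x1 x2 : ℝ) : ℂ := ∑ m ∈ bx K, c m * ex (m.1 * x1 + m.2 * x2)

/-- a sub-probability weight on `[0, 2^r)^2` -/
def Wt (r : ℕ) (p : ℕ → ℕ → ℝ) : Prop :=
  (∀ n a, 0 ≤ p n a) ∧ ∑ n ∈ range (2 ^ r), ∑ a ∈ range (2 ^ r), p n a ≤ 1
noncomputable def phi (r : ℕ) (p : ℕ → ℕ → ℝ) (t1 t2 : ℝ) : ℂ :=
  ∑ n ∈ range (2 ^ r), ∑ a ∈ range (2 ^ r), (p n a : ℂ) * ex (n * t1 + a * t2)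
/-- (1.2): decay of `phi` in the mean over `y` -/
def HP (r : ℕ) (p : ℕ → ℕ → ℝ) (h A Kq : ℝ) : Prop :=
  (∀ t1 t2 : ℝ, 1/2 ≤ max |t1| |t2| → max |t1| |t2| ≤ Kq →
    ∫ y in (0:ℝ)..1, ‖phi r p (y * t1) (y * t2)‖ ^ 2 ≤ A) ∧
  (∀ t1 t2 : ℝ, 0 < max |t1| |t2| → max |t1| |t2| ≤ 1/2 →
    ∫ y in (0:ℝ)..1, ‖phi r p (y * t1) (y * t2)‖ ^ 2 ≤ A * (max |t1| |t2|) ^ (-h))

/-! ### Section 3 -/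
/-- the linearised sum `R_k` -/
noncomputable def Rs (r : ℕ) (p : ℕ → ℕ → ℝ) (P : ℕ) (Om : ℕ → ℕ → ℝ) (k : ℤ × ℤ) (y s1 s2 : ℝ) : ℂ :=
  ∑ n ∈ range (2 ^ r), ∑ a ∈ range (2 ^ r),
    (p n a * omT P Om (s1 + y * n / P) (s2 + y * a / P) : ℝ) *
      ex (k.1 * (P * s1 + y * n) + k.2 * (P * s2 + y * a))
/-- its coefficient at the frequency `m + k P` -/
noncomputable def Rc (r : ℕ) (p : ℕ → ℕ → ℝ) (P : ℕ) (Om : ℕ → ℕ → ℝ) (k : ℤ × ℤ) (y : ℝ) (m : ℤ × ℤ) : ℂ :=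
  omh P Om m.1 m.2 * phi r p (y * ((m.1 + k.1 * P : ℝ) / P)) (y * ((m.2 + k.2 * P : ℝ) / P))
noncomputable def Fk (r : ℕ) (p : ℕ → ℕ → ℝ) (P : ℕ) (Om : ℕ → ℕ → ℝ) (k : ℤ × ℤ) (y : ℝ) : ℝ :=
  ∑ m ∈ bx P, ‖Rc r p P Om k y m‖ ^ 2
noncomputable def sh (q i P : ℕ) : Finset (ℤ × ℤ) := (bx P).filter fun m => (q:ℝ) ^ (i - 1) ≤ nm m ∧ nm m < (q:ℝ) ^ i
noncomputable def Fs (q i r : ℕ) (p : ℕ → ℕ → ℝ) (P : ℕ) (Om : ℕ → ℕ → ℝ) (y : ℝ) : ℝ :=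
  ∑ m ∈ sh q i P, ‖Rc r p P Om 0 y m‖ ^ 2
noncomputable def Rsh (q i r : ℕ) (p : ℕ → ℕ → ℝ) (P : ℕ) (Om : ℕ → ℕ → ℝ) (y s1 s2 : ℝ) : ℂ :=
  ∑ m ∈ sh q i P, Rc r p P Om 0 y m * ex (m.1 * s1 + m.2 * s2)

/-- (3.3) -/
def RSFStmt : Prop := ∀ (r : ℕ) (p : ℕ → ℕ → ℝ) (P : ℕ), 0 < P → ∀ (Om : ℕ → ℕ → ℝ) (k : ℤ × ℤ) (y s1 s2 : ℝ),
  Rs r p P Om k y s1 s2 = ∑ m ∈ bx P, Rc r p P Om k y m * ex ((m.1 + k.1 * P) * s1 + (m.2 + k.2 * P) * s2)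

/-- (2.7) cell sup in point form, for general coefficients -/
def CSPStmt : Prop := ∀ (K : ℕ), 0 < K → ∀ (c : ℤ × ℤ → ℂ) (x : ℕ × ℕ → ℝ × ℝ),
  (∀ s ∈ range K ×ˢ range K, (s.1:ℝ) / K ≤ (x s).1 ∧ (x s).1 ≤ (s.1 + 1) / K ∧ (s.2:ℝ) / K ≤ (x s).2 ∧ (x s).2 ≤ (s.2 + 1) / K) →
  ∑ s ∈ range K ×ˢ range K, ‖tp K c (x s).1 (x s).2‖ ^ 2 ≤ 200 * (K:ℝ) ^ 2 * ∑ m ∈ bx K, ‖c m‖ ^ 2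

/-- (2.8) for `R_k`: points in the cells of side `1/K` -/
def RCEStmt : Prop := ∀ (r : ℕ) (p : ℕ → ℕ → ℝ) (P : ℕ), 0 < P → ∀ (Om : ℕ → ℕ → ℝ) (k : ℤ × ℤ) (y : ℝ) (K : ℕ),
  (nm k + 1) * P ≤ K → ∀ (x : ℕ × ℕ → ℝ × ℝ),
  (∀ s ∈ range K ×ˢ range K, (s.1:ℝ) / K ≤ (x s).1 ∧ (x s).1 ≤ (s.1 + 1) / K ∧ (s.2:ℝ) / K ≤ (x s).2 ∧ (x s).2 ≤ (s.2 + 1) / K) →
  ∑ s ∈ range K ×ˢ range K, ‖Rs r p P Om k y (x s).1 (x s).2‖ ^ 2 ≤ 200 * (K:ℝ) ^ 2 * Fk r p P Om k y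

/-- (2.8) for the shells: points in the cells of side `1/K`, `K = q^i` -/
def RSHStmt : Prop := ∀ (q i r : ℕ), 2 ≤ q → ∀ (p : ℕ → ℕ → ℝ) (P : ℕ), 0 < P → ∀ (Om : ℕ → ℕ → ℝ) (y : ℝ) (x : ℕ × ℕ → ℝ × ℝ),
  (∀ s ∈ range (q ^ i) ×ˢ range (q ^ i), (s.1:ℝ) / (q ^ i : ℕ) ≤ (x s).1 ∧ (x s).1 ≤ (s.1 + 1) / (q ^ i : ℕ) ∧
    (s.2:ℝ) / (q ^ i : ℕ) ≤ (x s).2 ∧ (x s).2 ≤ (s.2 + 1) / (q ^ i : ℕ)) →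
  ∑ s ∈ range (q ^ i) ×ˢ range (q ^ i), ‖Rsh q i r p P Om y (x s).1 (x s).2‖ ^ 2 ≤
    200 * ((q:ℝ) ^ i) ^ 2 * Fs q i r p P Om y

/-- `R_0` is its constant term plus the shells -/
def RZDStmt : Prop := ∀ (q t r : ℕ), 2 ≤ q → ∀ (p : ℕ → ℕ → ℝ) (Om : ℕ → ℕ → ℝ) (y s1 s2 : ℝ),
  Rs r p (q ^ t) Om 0 y s1 s2 = omh (q ^ t) Om 0 0 * phi r p 0 0 + ∑ i ∈ Icc 1 t, Rsh q i r p (q ^ t) Om y s1 s2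

/-- vanishing of the low shells: `t1` unforced top digits -/
def VANStmt : Prop := ∀ (q t t1 i r : ℕ), 2 ≤ q → t1 ≤ t → i ≤ t1 → ∀ (p : ℕ → ℕ → ℝ) (Om : ℕ → ℕ → ℝ) (y : ℝ),
  (∀ z1 < q ^ t, ∀ z2 < q ^ t, Om ((z1 + q ^ (t - t1)) % q ^ t) z2 = Om z1 z2 ∧ Om z1 ((z2 + q ^ (t - t1)) % q ^ t) = Om z1 z2) →
  ∀ m ∈ sh q i (q ^ t), Rc r p (q ^ t) Om 0 y m = 0

/-- continuity in `y` -/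
def FCTStmt : Prop := ∀ (r : ℕ) (p : ℕ → ℕ → ℝ) (P : ℕ) (Om : ℕ → ℕ → ℝ) (k : ℤ × ℤ) (q i : ℕ),
  Continuous (Fk r p P Om k) ∧ Continuous (Fs q i r p P Om)

/-- (3.4) -/
def FK4Stmt : Prop := ∀ (r : ℕ) (p : ℕ → ℕ → ℝ) (h A Kq : ℝ), Wt r p → 0 ≤ h → h ≤ 2 → 0 ≤ A → HP r p h A Kq →
  ∀ (P : ℕ), 0 < P → ∀ (Om : ℕ → ℕ → ℝ), (∀ z1 z2, 0 ≤ Om z1 z2) → ∀ (k : ℤ × ℤ), k ≠ 0 → nm k + 1 ≤ Kq →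
  ∫ y in (0:ℝ)..1, Fk r p P Om k y ≤ 190 * A * nrm P Om

/-- (3.4') -/
def FK5Stmt : Prop := ∀ (r : ℕ) (p : ℕ → ℕ → ℝ) (h A Kq : ℝ), Wt r p → 0 ≤ h → 0 ≤ A → 1 ≤ Kq → HP r p h A Kq →
  ∀ (q t : ℕ) (kap C0 : ℝ) (Om : ℕ → ℕ → ℝ), 2 ≤ q → 0 ≤ kap → 0 ≤ C0 → (∀ z1 z2, 0 ≤ Om z1 z2) → Reg q t kap C0 Om →
  ∀ i, 1 ≤ i → i ≤ t →
  ∫ y in (0:ℝ)..1, Fs q i r p (q ^ t) Om y ≤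
    6400 * C0 ^ 2 * A * ((q:ℝ) ^ t / (q:ℝ) ^ (i - 1)) ^ h * ((q:ℝ) ^ i) ^ kap

/-! ### Section 4 and (5.1) -/
noncomputable def Dk (r : ℕ) (p : ℕ → ℕ → ℝ) (K : ℕ) (y : ℝ) : ℝ :=
  ∑ k ∈ bx0 K, ‖phi r p (y * k.1) (y * k.2)‖ ^ 2

/-- (4.1) crude bound -/
def CRUStmt : Prop := ∀ (r : ℕ) (p : ℕ → ℕ → ℝ), Wt r p → ∀ (K : ℕ), 0 < K → ∀ (E : Finset (ℕ × ℕ)),
  E ⊆ range K ×ˢ range K → ∀ (y s1 s2 : ℝ),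
  (∑ n ∈ range (2 ^ r), ∑ a ∈ range (2 ^ r), if (ix K (s1 + y * n), ix K (s2 + y * a)) ∈ E then p n a else 0) ≤
    7 * ((E.card : ℝ) / (K:ℝ) ^ 2) + 13 * Real.sqrt ((E.card : ℝ) / (K:ℝ) ^ 2) * Real.sqrt (Dk r p K y)

/-- mean of `Dk`: collision numbers -/
def DINStmt : Prop := ∀ (r : ℕ) (p : ℕ → ℕ → ℝ) (K : ℕ),
  Continuous (Dk r p K) ∧
  ∫ y in (0:ℝ)..1, Dk r p K y = ∑ k ∈ bx0 K, ∑ n ∈ range (2 ^ r), ∑ a ∈ range (2 ^ r), ∑ n' ∈ range (2 ^ r), ∑ a' ∈ range (2 ^ r),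
    if k.1 * ((n:ℤ) - n') + k.2 * ((a:ℤ) - a') = 0 then p n a * p n' a' else 0

/-- (5.1), analytic part -/
def NLSStmt : Prop := ∀ (r : ℕ) (p : ℕ → ℕ → ℝ), Wt r p → ∀ (P : ℕ), 0 < P → ∀ (Om : ℕ → ℕ → ℝ), (∀ z1 z2, 0 ≤ Om z1 z2) →
  ∀ (K : ℕ), 0 < K → ∀ (B : Finset (ℕ × ℕ)), B ⊆ range K ×ˢ range K → ∀ (y s1 s2 : ℝ),
  (∑ n ∈ range (2 ^ r), ∑ a ∈ range (2 ^ r), if (ix K (P * s1 + y * n), ix K (P * s2 + y * a)) ∈ B then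
      p n a * Om (fl P (P * s1 + y * n)) (fl P (P * s2 + y * a)) else 0) ≤
    7 * ((B.card : ℝ) / (K:ℝ) ^ 2) * ‖Rs r p P Om 0 y s1 s2‖ +
      13 * Real.sqrt ((B.card : ℝ) / (K:ℝ) ^ 2) * Real.sqrt (∑ k ∈ bx0 K, ‖Rs r p P Om k y s1 s2‖ ^ 2)

/-- mass: the same without `B` -/
def MASStmt : Prop := ∀ (r : ℕ) (p : ℕ → ℕ → ℝ), Wt r p → ∀ (P : ℕ), 0 < P → ∀ (Om : ℕ → ℕ → ℝ), (∀ z1 z2, 0 ≤ Om z1 z2) →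
  ∀ (y s1 s2 : ℝ),
  (∑ n ∈ range (2 ^ r), ∑ a ∈ range (2 ^ r), p n a * Om (fl P (P * s1 + y * n)) (fl P (P * s2 + y * a))) ≤
    ‖Rs r p P Om 0 y s1 s2‖

/-! ### regularity of products -/
/-- product of a top part `f` (`t` digits) and a bottom part `g` (`u` digits) -/
noncomputable def pr2 (q u : ℕ) (f g : ℕ → ℕ → ℝ) (z1 z2 : ℕ) : ℝ :=
  f (z1 / q ^ u) (z2 / q ^ u) * g (z1 % q ^ u) (z2 % q ^ u)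
def RG2Stmt : Prop := ∀ (q t u : ℕ) (kap Cf Sf Cg Mg : ℝ) (f g : ℕ → ℕ → ℝ), 2 ≤ q → 0 ≤ kap →
  (∀ a b, 0 ≤ f a b) → (∀ a b, 0 ≤ g a b) → Reg q t kap Cf f → (∀ a < q ^ t, ∀ b < q ^ t, f a b ≤ Sf * ((q:ℝ) ^ t) ^ kap) →
  Reg q u kap Cg g → (∑ a ∈ range (q ^ u), ∑ b ∈ range (q ^ u), g a b ≤ Mg * ((q:ℝ) ^ u) ^ 2) → 0 ≤ Cf → 0 ≤ Sf → 0 ≤ Cg → 0 ≤ Mg →
  Reg q (t + u) kap (max (Cf * Mg) (Sf * Cg)) (pr2 q u f g)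
/-- `1 + 2 omega^+` -/
noncomputable def opl (T : ℕ) (om : ℕ → ℕ → ℝ) (z1 z2 : ℕ) : ℝ :=
  1 + 2 * ∑ d1 ∈ range 2, ∑ d2 ∈ range 2, om ((z1 + T - d1) % T) ((z2 + T - d2) % T)
def RGPStmt : Prop := ∀ (q t : ℕ) (kap C : ℝ) (om : ℕ → ℕ → ℝ), 2 ≤ q → 0 ≤ kap → 0 ≤ C → (∀ a b, 0 ≤ om a b) →
  Reg q t kap C om → Reg q t kap (1 + 32 * C) (opl (q ^ t) om)

/-! ### Section 6 -/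
/-- away from the integers by `2^-g` -/
def mar (g : ℕ) (x : ℝ) : Prop := 1 / 2 ^ g ≤ Int.fract x ∧ Int.fract x ≤ 1 - 1 / 2 ^ g
open Classical in
/-- the row `V` of the kernel, with margin -/
noncomputable def gm (g T : ℕ) (om : ℕ → ℕ → ℝ) (V : ℕ) (u : ℝ) : ℝ := if mar g u then om V (fl T u) else 0
/-- its autocorrelation -/
noncomputable def CV (g T : ℕ) (om : ℕ → ℕ → ℝ) (V : ℕ) (v : ℝ) : ℝ :=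
  (∫ u in (0:ℝ)..T, gm g T om V u * gm g T om V (u + v)) / T
/-- mean of the margin indicator -/
noncomputable def mu (g : ℕ) : ℝ := 1 - 2 / 2 ^ g
noncomputable def F1f (g w : ℕ) (k : ℕ → ℝ) (T : ℕ) (om : ℕ → ℕ → ℝ) (y : ℝ) : ℝ :=
  mu g / T * ∑ V ∈ range T, ((∑ x ∈ range (2 ^ w), ∑ x' ∈ range (2 ^ w), k x * k x' * CV g T om V (y * ((x:ℝ) - x'))) - mu g ^ 2)
/-- `Z` -/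
noncomputable def Zf (w : ℕ) (k : ℕ → ℝ) (T : ℕ) (om : ℕ → ℕ → ℝ) (y : ℝ) (eta : ℕ) (x1 x2 : ℝ) : ℝ :=
  ∑ x ∈ range (2 ^ w), k x * om (fl T (T * x1 + y * eta)) (fl T (T * x2 + y * x))

def F1CStmt : Prop := ∀ (g T : ℕ), 0 < T → ∀ (om : ℕ → ℕ → ℝ) (V : ℕ), Continuous (CV g T om V)

/-- averages of the autocorrelation over `y` in `[0,1]` -/
def F1AStmt : Prop := ∀ (g q t t1 : ℕ) (kap C1 : ℝ) (om : ℕ → ℕ → ℝ), 2 ≤ q → t1 ≤ t → 2 ≤ g → 0 ≤ kap → 1 ≤ C1 →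
  (∀ a b, 0 ≤ om a b) → (∀ V < q ^ t, ∑ a ∈ range (q ^ t), om V a = (q:ℝ) ^ t) →
  (∀ V < q ^ t, ∀ a < q ^ t, om V ((a + q ^ (t - t1)) % q ^ t) = om V a) →
  (∀ V < q ^ t, ∀ i, t1 ≤ i → i ≤ t → ∀ a < q ^ i, ∑ z ∈ range (q ^ (t - i)), om V (a * q ^ (t - i) + z) ≤ (q:ℝ) ^ (t - i) * (C1 * ((q:ℝ) ^ (i - t1)) ^ kap)) →
  ∀ V < q ^ t,
    (CV g (q ^ t) om V 0 ≤ C1 * ((q:ℝ) ^ (t - t1)) ^ kap) ∧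
    (∀ D : ℝ, 1 ≤ D → D < (q:ℝ) ^ (t - t1) → ∫ y in (0:ℝ)..1, CV g (q ^ t) om V (y * D) ≤ 3 * C1 * (q:ℝ) ^ kap * ((q:ℝ) ^ (t - t1) / D) ^ kap) ∧
    (∀ D : ℝ, (q:ℝ) ^ (t - t1) ≤ D → ∫ y in (0:ℝ)..1, CV g (q ^ t) om V (y * D) ≤ mu g ^ 2 * (1 + (q:ℝ) ^ (t - t1) / D))

/-- (6.1) in the mean over `y` -/
def F1TStmt : Prop := ∀ (g q t t1 w : ℕ) (kap C1 C2 bet : ℝ) (om : ℕ → ℕ → ℝ) (k : ℕ → ℝ), 2 ≤ q → t1 ≤ t → 2 ≤ g → 0 ≤ kap → 1 ≤ C1 →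
  (∀ a b, 0 ≤ om a b) → (∀ V < q ^ t, ∑ a ∈ range (q ^ t), om V a = (q:ℝ) ^ t) →
  (∀ V < q ^ t, ∀ a < q ^ t, om V ((a + q ^ (t - t1)) % q ^ t) = om V a) →
  (∀ V < q ^ t, ∀ i, t1 ≤ i → i ≤ t → ∀ a < q ^ i, ∑ z ∈ range (q ^ (t - i)), om V (a * q ^ (t - i) + z) ≤ (q:ℝ) ^ (t - i) * (C1 * ((q:ℝ) ^ (i - t1)) ^ kap)) →
  kap < bet → bet ≤ 1/2 → 1 ≤ C2 → (∀ x, 0 ≤ k x) → ∑ x ∈ range (2 ^ w), k x = 1 →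
  (∀ D : ℝ, 1 ≤ D → D ≤ 2 ^ w → (∑ x ∈ range (2 ^ w), ∑ x' ∈ range (2 ^ w), if |(x:ℝ) - x'| < D then k x * k x' else 0) ≤ C2 * (D / 2 ^ w) ^ bet) →
  Continuous (F1f g w k (q ^ t) om) ∧ (∀ y, 0 ≤ F1f g w k (q ^ t) om y) ∧
  ∫ y in (0:ℝ)..1, F1f g w k (q ^ t) om y ≤ 30 * q / (bet - kap) * C1 * C2 * ((q:ℝ) ^ (t - t1) / 2 ^ w) ^ bet

/-- (6.2): bad cells. `H` = typical `eta` -/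
def F1BStmt : Prop := ∀ (g w T : ℕ) (om : ℕ → ℕ → ℝ) (H : Finset ℕ) (k : ℕ → ℕ → ℝ) (y del : ℝ), 0 < T → 3 ≤ g → 0 < del →
  H ⊆ range (2 ^ w) → (∀ a b, 0 ≤ om a b) → (∀ V < T, ∑ a ∈ range T, om V a = T) → (∀ e x, 0 ≤ k e x) →
  (∀ e ∈ H, ∑ x ∈ range (2 ^ w), k e x = 1) → ∀ (B : Finset (ℕ × ℕ)), B ⊆ range (T * 2 ^ g) ×ˢ range (T * 2 ^ g) →
  (∀ s ∈ B, ∃ x1 x2 : ℝ, ix (T * 2 ^ g) x1 = s.1 ∧ ix (T * 2 ^ g) x2 = s.2 ∧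
    del < (∑ e ∈ H, if Zf w (k e) T om y e x1 x2 < 1/2 then (1:ℝ) else 0) / 2 ^ w) →
  (B.card : ℝ) * del ≤ ((T:ℝ) * 2 ^ g) ^ 2 * (2 / 2 ^ g + 16 * ((∑ e ∈ H, F1f g w (k e) T om y) / 2 ^ w))

/-- the same for the mean of `|Z - 1|` -/
def F1DStmt : Prop := ∀ (g w T : ℕ) (om : ℕ → ℕ → ℝ) (H : Finset ℕ) (k : ℕ → ℕ → ℝ) (y del : ℝ), 0 < T → 3 ≤ g → 0 < del →
  H ⊆ range (2 ^ w) → (∀ a b, 0 ≤ om a b) → (∀ V < T, ∑ a ∈ range T, om V a = T) → (∀ e x, 0 ≤ k e x) →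
  (∀ e ∈ H, ∑ x ∈ range (2 ^ w), k e x = 1) → ∀ (B : Finset (ℕ × ℕ)), B ⊆ range (T * 2 ^ g) ×ˢ range (T * 2 ^ g) →
  (∀ s ∈ B, ∃ x1 x2 : ℝ, ix (T * 2 ^ g) x1 = s.1 ∧ ix (T * 2 ^ g) x2 = s.2 ∧
    del < (∑ e ∈ H, |Zf w (k e) T om y e x1 x2 - 1|) / 2 ^ w) →
  (B.card : ℝ) * del ≤ ((T:ℝ) * 2 ^ g) ^ 2 * (30 / 2 ^ g + 2 * Real.sqrt ((∑ e ∈ H, F1f g w (k e) T om y) / 2 ^ w))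

/-! ### Section 8 -/
/-- `G_(s,k)` -/
noncomputable def Gf (w s : ℕ) (p : ℕ → ℕ → ℝ) (T : ℕ) (om : ℕ → ℕ → ℝ) (k : ℤ × ℤ) (y th x1 x2 : ℝ) : ℂ :=
  ∑ n ∈ range (2 ^ w), ∑ a ∈ range (2 ^ w), (p n a * om (fl T (T * x1 + y * n)) (fl T (T * x2 + y * a)) : ℝ) *
    ex (th * (k.1 * ((n / 2 ^ (w - s) : ℕ) : ℝ) + k.2 * ((a / 2 ^ (w - s) : ℕ) : ℝ)))
/-- `Phi_m` -/
noncomputable def Ph (w s : ℕ) (p : ℕ → ℕ → ℝ) (T : ℕ) (k m : ℤ × ℤ) (y th : ℝ) : ℂ :=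
  ∑ n ∈ range (2 ^ w), ∑ a ∈ range (2 ^ w), (p n a : ℂ) *
    ex (y * (m.1 * n + m.2 * a) / T + th * (k.1 * ((n / 2 ^ (w - s) : ℕ) : ℝ) + k.2 * ((a / 2 ^ (w - s) : ℕ) : ℝ)))
/-- the kernel on the grid refined by `Q` -/
noncomputable def rf (Q : ℕ) (om : ℕ → ℕ → ℝ) (z1 z2 : ℕ) : ℝ := om (z1 / Q) (z2 / Q)
noncomputable def F4f (w s : ℕ) (p : ℕ → ℕ → ℝ) (T Q : ℕ) (om : ℕ → ℕ → ℝ) (k : ℤ × ℤ) (y th : ℝ) : ℝ :=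
  ∑ m ∈ bx (T * Q), ‖omh (T * Q) (rf Q om) m.1 m.2‖ ^ 2 * ‖Ph w s p T k m y th‖ ^ 2

/-- (8.9): cells with a large phase sum -/
def GBDStmt : Prop := ∀ (g w s T Q : ℕ) (p : ℕ → ℕ → ℝ) (om : ℕ → ℕ → ℝ) (k : ℤ × ℤ) (y th d : ℝ), 0 < T → 2 ≤ Q → 0 < d →
  Wt w p → (∀ a b, 0 ≤ om a b) → (∑ V ∈ range T, ∑ a ∈ range T, om V a ≤ (T:ℝ) ^ 2) →
  ∀ (B : Finset (ℕ × ℕ)), B ⊆ range (T * 2 ^ g) ×ˢ range (T * 2 ^ g) →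
  (∀ s' ∈ B, ∃ x1 x2 : ℝ, ix (T * 2 ^ g) x1 = s'.1 ∧ ix (T * 2 ^ g) x2 = s'.2 ∧ 3 * d < ‖Gf w s p T om k y th x1 x2‖) →
  (B.card : ℝ) ≤ ((T:ℝ) * 2 ^ g) ^ 2 * (F4f w s p T Q om k y th / (c4 ^ 2 * d ^ 2) + 14 * (Real.log Q + 5) / (Q * d) + 36 / (2 ^ g * d))

/-- refining keeps regularity -/
def RFRStmt : Prop := ∀ (q t u : ℕ) (kap C : ℝ) (om : ℕ → ℕ → ℝ), 2 ≤ q → 0 ≤ kap → (∀ a b, 0 ≤ om a b) → Reg q t kap C om → 0 ≤ C →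
  Reg q (t + u) kap C (rf (q ^ u) om)

/-- summation by shells -/
def SHSStmt : Prop := ∀ (q t : ℕ) (kap C0 : ℝ) (Om : ℕ → ℕ → ℝ) (f : ℝ → ℝ), 2 ≤ q → 0 ≤ kap → 0 ≤ C0 → (∀ a b, 0 ≤ Om a b) → Reg q t kap C0 Om →
  (∀ x, 0 ≤ f x) → Antitone f →
  ∑ m ∈ bx (q ^ t), ‖omh (q ^ t) Om m.1 m.2‖ ^ 2 * f (nm m) ≤
    6400 * C0 ^ 2 * (f 0 + ∑ i ∈ Icc 1 t, ((q:ℝ) ^ i) ^ kap * f ((q:ℝ) ^ (i - 1)))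

/-- (8.7): mean of `max(1,U)^(-1/2)` from the layers -/
def EMXStmt : Prop := ∀ {ι : Type} (S : Finset ι) (wt U : ι → ℝ) (h N Lam : ℝ), 1/2 < h → h ≤ 1 → 1 ≤ N → 1 ≤ Lam →
  (∀ i ∈ S, 0 ≤ wt i) → (∀ i ∈ S, 0 ≤ U i) → ∑ i ∈ S, wt i ≤ 1 →
  (∀ j : ℕ, ∑ i ∈ S.filter (fun i => U i < 2 ^ j), wt i ≤ Lam * (2 ^ j / N) ^ h) →
  ∑ i ∈ S, wt i * (max 1 (U i)) ^ (-(1/2:ℝ)) ≤ 20 / (h - 1/2) * Lam * N ^ (-(1/2:ℝ))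

/-- second moment over `y` of `phi` -/
def PHIStmt : Prop := ∀ (r : ℕ) (p : ℕ → ℕ → ℝ), (∀ n a, 0 ≤ p n a) → ∀ (t1 t2 : ℝ),
  ∫ y in (0:ℝ)..1, ‖phi r p (y * t1) (y * t2)‖ ^ 2 ≤
    ∑ n ∈ range (2 ^ r), ∑ a ∈ range (2 ^ r), ∑ n' ∈ range (2 ^ r), ∑ a' ∈ range (2 ^ r),
      p n a * p n' a' / max 1 |t1 * ((n:ℝ) - n') + t2 * ((a:ℝ) - a')|

end Pool.FD
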