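import Pool.Agent.H84.FD.S
import Pool.Agent.H24.FD.Defs

/-! MP_1f2761, k = 2: analytic rows, part 2 (p-phases, section 8 of P2761_est84.md). -/

namespace Pool.FD
open Finset Pool.K2 MeasureTheory Pool.Agent.H24.FD

/-- (8.2) trigonometric majorant of the complement of `{z1 + c < z2 < 1 - c}`.
Proof: cells of side `1/N`, `E` = cells meeting the complement, `E+` = its neighbourhood of `R` cells,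
`(1 - e)^-1 sum over E+ of fe N * fe N` (partition of unity: sum of all `fe N (x - (z+1/2)/N)` is one). -/
def TMJStmt : Prop := ∀ c del : ℝ, 0 < c → c < 1/8 → 0 < del → ∃ (K0 : ℕ) (Mj : ℤ × ℤ → ℂ), 0 < K0 ∧
  (∀ x1 x2 : ℝ, (tp K0 Mj x1 x2).im = 0 ∧ 0 ≤ (tp K0 Mj x1 x2).re ∧
    (¬ (Int.fract x1 + c < Int.fract x2 ∧ Int.fract x2 < 1 - c) → 1 ≤ (tp K0 Mj x1 x2).re)) ∧
  (Mj 0).im = 0 ∧ 0 ≤ (Mj 0).re ∧ (Mj 0).re ≤ 1/2 + 4 * c + del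

/-- (8.1) a point in `G_c` decides the level -/
def SURStmt : Prop := ∀ (p m J : ℕ) (x : ℕ × ℕ) (c : ℝ), 0 < p → (2:ℝ) ^ J / (p:ℝ) ^ m ≤ c →
  Int.fract ((x.1:ℝ) * ((2:ℝ) ^ J / (p:ℝ) ^ m)) + c < Int.fract ((x.2:ℝ) * ((2:ℝ) ^ J / (p:ℝ) ^ m)) →
  Int.fract ((x.2:ℝ) * ((2:ℝ) ^ J / (p:ℝ) ^ m)) < 1 - c → Sure p m J x

/-- decided levels stay decided -/
def SPRStmt : Prop := ∀ (p m J u : ℕ) (x : ℕ × ℕ) (η ξ : ℕ), 0 < p → η < 2 ^ u → ξ < 2 ^ u →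
  Sure p m (J + u) x → Sure p m J (2 ^ u * x.1 + η, 2 ^ u * x.2 + ξ)

/-- hypothesis: lemma on pairs (helper7), for the two alignments -/
def PairH (q p : ℕ) : Prop := ∃ C : ℝ, 0 < C ∧ ∀ W ≥ 1, ∀ (s1 s2 : ℕ) (A B : ℝ), ∀ eps > 0, ∃ T0 : ℕ, ∀ T ≥ T0,
  ∀ J ≥ max s1 s2,
  ‖∑ j ∈ range T, ex (A * yy q (J + j * W - s1) + B * yy p (J + j * W - s2))‖ ≤
    (C * (max 1 (max |A| |B|)) ^ (-(1/2:ℝ)) + eps) * T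

/-- `PairH` from 7's pair lemma -/
def PRHStmt : Prop := ∀ q p : ℕ, q.Prime → p.Prime → q ≠ 2 → p ≠ 2 → q ≠ p → PairH q p

/-- small values of `k.V_s` -/
def H1c (w s : ℕ) (p : ℕ → ℕ → ℝ) (k : ℤ × ℤ) (h Lam N : ℝ) : Prop := ∀ D : ℝ, 1 ≤ D →
  (∑ n ∈ range (2 ^ w), ∑ a ∈ range (2 ^ w), ∑ n' ∈ range (2 ^ w), ∑ a' ∈ range (2 ^ w),
    if |(k.1:ℝ) * (((n / 2 ^ (w - s) : ℕ) : ℝ) - ((n' / 2 ^ (w - s) : ℕ) : ℝ)) +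
        k.2 * (((a / 2 ^ (w - s) : ℕ) : ℝ) - ((a' / 2 ^ (w - s) : ℕ) : ℝ))| < D
      then p n a * p n' a' else 0) ≤ Lam * (D / N) ^ h
/-- small values of `m.V / T` -/
def H2c (w : ℕ) (p : ℕ → ℕ → ℝ) (T M : ℕ) (h Lam N : ℝ) : Prop := ∀ m ∈ bx0 M, ∀ D : ℝ, 1 ≤ D →
  (∑ n ∈ range (2 ^ w), ∑ a ∈ range (2 ^ w), ∑ n' ∈ range (2 ^ w), ∑ a' ∈ range (2 ^ w),
    if |(m.1:ℝ) * ((n:ℝ) - n') + m.2 * ((a:ℝ) - a')| < D * T then p n a * p n' a' else 0) ≤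
    Lam * (D / (N * nm m)) ^ h

/-- average over the windows of `|Phi_m|^2`: from `PairH` and EMX. The two scales: `N1` from `k.V_s`,
`N2 * |m|` from `m.V/T`. `b` = exponent of the margin (`th = yy p .. / p^b`), absorbed by `p^b`. -/
def PAVStmt : Prop := ∀ (q p : ℕ), 2 ≤ q → 2 ≤ p → PairH q p → ∀ h : ℝ, 1/2 < h → h ≤ 1 → ∃ C : ℝ, 0 < C ∧
  ∀ (w s T M W b : ℕ) (pw : ℕ → ℕ → ℝ) (k : ℤ × ℤ) (Lam N1 N2 : ℝ), s ≤ w → 0 < T → 0 < W → Wt w pw →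
  1 ≤ Lam → (p:ℝ) ^ b ≤ N1 → 0 < N2 → H1c w s pw k h Lam N1 → H2c w pw T M h Lam N2 →
  ∀ m ∈ bx M, ∀ eps > 0, ∃ K0 : ℕ, ∀ K ≥ K0, ∀ J ≥ w,
    ∑ i ∈ range K, ‖Ph w s pw T k m (yy q (J + i * W - w)) (yy p (J + i * W - s) / (p:ℝ) ^ b)‖ ^ 2 ≤
      K * (C * Lam * (max (N1 / (p:ℝ) ^ b) (N2 * nm m)) ^ (-(1/2:ℝ)) + eps)

/-- (8.8) average over the windows of `F4f` -/
def F4SStmt : Prop := ∀ (q p : ℕ), 2 ≤ q → 2 ≤ p → PairH q p → ∀ h kap : ℝ, 1/2 < h → h ≤ 1 → 0 < kap → kap < 1/2 →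
  ∃ C : ℝ, 0 < C ∧
  ∀ (w s t u W b : ℕ) (pw : ℕ → ℕ → ℝ) (om : ℕ → ℕ → ℝ) (k : ℤ × ℤ) (Lam C0 N1 N2 : ℝ), s ≤ w → 0 < W → Wt w pw →
  1 ≤ Lam → 1 ≤ C0 → (p:ℝ) ^ b ≤ N1 → ((q:ℝ) ^ 3)⁻¹ ≤ N2 → H1c w s pw k h Lam N1 → H2c w pw (q ^ t) (q ^ t * q ^ u) h Lam N2 →
  (∀ V a, 0 ≤ om V a) → Reg q t kap C0 om →
  ∀ eps > 0, ∃ K0 : ℕ, ∀ K ≥ K0, ∀ J ≥ w,
    ∑ i ∈ range K, F4f w s pw (q ^ t) (q ^ u) om k (yy q (J + i * W - w)) (yy p (J + i * W - s) / (p:ℝ) ^ b) ≤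
      K * (C * Lam * C0 ^ 2 * (N1 / (p:ℝ) ^ b) ^ (kap - 1/2) + eps)

end Pool.FD
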