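import Pool.Agent.H84.FD.AVe

/-! MP_1f2761, k = 2: bad positions of the type `C`, and row AVF. -/

set_option autoImplicit false

namespace Pool.FD.AV
open Finset Pool.K2 Pool.FD Pool.Agent.H24.FD MeasureTheory

theorem reg_one {q t : ℕ} {kap C : ℝ} (hq : 2 ≤ q) (hk : 0 ≤ kap) (hC : 1 ≤ C) : Reg q t kap C (fun _ _ => 1) := by
  intro i hi a _ b _
  have hq1 : (1:ℝ) ≤ q := by exact_mod_cast (by omega : 1 ≤ q)
  have h1 : (1:ℝ) ≤ ((q:ℝ) ^ i) ^ kap := Real.one_le_rpow (one_le_pow₀ hq1) hk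
  have h2 : 1 ≤ C * ((q:ℝ) ^ i) ^ kap := by nlinarith
  simp only [sum_const, card_range, nsmul_eq_mul, mul_one]
  push_cast
  have h3 : 0 ≤ (q:ℝ) ^ (t - i) * (q:ℝ) ^ (t - i) := by positivity
  nlinarith [mul_le_mul_of_nonneg_right h2 h3]

theorem omW_nonneg {q m g t₁ : ℕ} {wm : ℕ → ℕ → ℝ} {w G Jt : ℕ} (hwm : MK q m kk wm) (J : ℕ)
    (z : ℕ × ℕ) : 0 ≤ omW q m g t₁ wm w G Jt J z := by
  unfold omW
  split_ifs
  · exact zero_le_one
  · unfold omK
    apply mul_nonneg (prod_nonneg fun i _ => hwm.nonneg _ _)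
    unfold gd
    split_ifs
    · exact le_rfl
    · rcases Nat.eq_zero_or_pos q with h | h
      · subst h
        rcases Nat.eq_zero_or_pos g with h' | h'
        · subst h'; simp
        · simp [h'.ne']
      · have h1 : (1:ℝ) ≤ (q:ℝ) ^ g := one_le_pow₀ (by exact_mod_cast h)
        have h2 : 1 / (q:ℝ) ^ g ≤ 1 := by rw [div_le_one (by linarith)]; exact h1
        exact div_nonneg zero_le_one (by linarith)

/-- regularity of the density of `c` blocks -/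
theorem reg_OMc {q m g t₁ l k G b c J : ℕ} {wm : ℕ → ℕ → ℝ} (hq : 2 ≤ q) (hm : 1 ≤ m) (hg : 1 ≤ g)
    (htt : ∀ J, l * k ≤ J → t₁ + g ≤ tt q (l * k) J) (hwm : MK q m kk wm) (hJ : l * k * c ≤ J) :
    Reg q (tt q (l * k * c) J) kk ((17 + 64 * (q : ℝ) ^ (kk * m)) ^ c) (OMc q m g t₁ l k G (J + l * k * b) wm c J) := by
  have hq1 : (1:ℝ) ≤ q := by exact_mod_cast (by omega : 1 ≤ q)
  have hqm : (1:ℝ) ≤ (q : ℝ) ^ (kk * m) := Real.one_le_rpow hq1 (mul_nonneg kk_nonneg (Nat.cast_nonneg m))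
  have h := reg_OMF q (l * k) hq kk (2 * (q : ℝ) ^ (kk * m)) 2 (17 + 64 * (q : ℝ) ^ (kk * m)) kk_nonneg (by positivity)
    (by norm_num) (by linarith) (by linarith) (omW q m g t₁ wm (l * k) G (J + l * k * b))
    (fun J z => omW_nonneg hwm J z) c J hJ (by
      intro j hj
      have h1 : l * k * (j + 1) ≤ l * k * c := Nat.mul_le_mul_left _ (by omega)
      have h2 : l * k * (j + 1) = l * k * j + l * k := by ring
      have h3 : l * k ≤ J - l * k * j := by omega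
      by_cases hcase : J + l * k * b < J - l * k * j + G * (l * k)
      · have e : ∀ z, omW q m g t₁ wm (l * k) G (J + l * k * b) (J - l * k * j) z = 1 := fun z => by
          unfold omW; rw [if_pos hcase]
        constructor
        · simp only [e]
          exact reg_one hq kk_nonneg (by linarith)
        · intro z
          rw [e]
          have : (1:ℝ) ≤ ((q:ℝ) ^ tt q (l * k) (J - l * k * j)) ^ kk := Real.one_le_rpow (one_le_pow₀ hq1) kk_nonneg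
          linarith
      · have e : ∀ z, omW q m g t₁ wm (l * k) G (J + l * k * b) (J - l * k * j) z =
            omK q m g t₁ wm (tt q (l * k) (J - l * k * j)) z := fun z => by
          unfold omW; rw [if_neg hcase]
        constructor
        · simp only [e]
          exact reg_omK hq hm hg (htt _ h3) kk_nonneg hwm
        · intro z
          rw [e]
          refine ((ker q m g t₁ _ kk wm hq hm hg (htt _ h3) kk_nonneg hwm).2.2.1 z).trans ?_
          rw [← Real.rpow_natCast, ← Real.rpow_mul (by linarith), mul_comm kk])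
  exact h

theorem OMc_nonneg {q m g t₁ l k G Jt c J : ℕ} {wm : ℕ → ℕ → ℝ} (hwm : MK q m kk wm) (z₁ z₂ : ℕ) :
    0 ≤ OMc q m g t₁ l k G Jt wm c J z₁ z₂ :=
  OMF_nonneg q (l * k) _ (fun J z => omW_nonneg hwm J z) c J (z₁, z₂)

/-- the density of `c` blocks depends only on the digit numbers -/
theorem OMc_congr {q m g t₁ l k G b c J J' : ℕ} {wm : ℕ → ℕ → ℝ} (hJ : l * k * c ≤ J) (hJ' : l * k * c ≤ J')
    (h : ∀ j < c, tt q (l * k) (J - l * k * j) = tt q (l * k) (J' - l * k * j)) :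
    tt q (l * k * c) J = tt q (l * k * c) J' ∧
    OMc q m g t₁ l k G (J + l * k * b) wm c J = OMc q m g t₁ l k G (J' + l * k * b) wm c J' := by
  obtain ⟨h1, h2⟩ := OMF_congr q (l * k) (omW q m g t₁ wm (l * k) G (J + l * k * b))
    (omW q m g t₁ wm (l * k) G (J' + l * k * b)) c J J' hJ hJ' h (by
      intro j hj z
      have h1 : l * k * j ≤ l * k * c := Nat.mul_le_mul_left _ hj.le
      unfold omW
      rw [h j hj]
      by_cases hcase : J + l * k * b < J - l * k * j + G * (l * k)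
      · rw [if_pos hcase, if_pos (by omega)]
      · rw [if_neg hcase, if_neg (by omega)])
  refine ⟨h1, ?_⟩
  funext z₁ z₂
  exact h2 (z₁, z₂)

/-- size comparison -/
theorem szC {X δ N B E x y P : ℝ} {l c : ℕ} (hl : (1:ℝ) ≤ l) (hX0 : 0 ≤ X)
    (hB : 0 < B) (hx : 0 ≤ x) (hE : E = x * B) (hxy : x ≤ y) (hN0 : 0 < N) (hN : N ≤ (c + 2) * ((l:ℝ) + 1) ^ 2)
    (hP : P ≤ (c + 6) * ((l:ℝ) + 1) ^ 2)
    (hasy : (10 * X * ((c + 2) * (c + 6) * 2 ^ c)) * (2 ^ l * ((l:ℝ) + 1) ^ (2 * c + 4) * y) < δ) :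
    10 * (X * (2 ^ l * P) * E) * (((l * l + 2) ^ c : ℕ) : ℝ) < δ / N * B := by
  push_cast
  have e2 : ((l:ℝ) * l + 2) ^ c ≤ 2 ^ c * ((l:ℝ) + 1) ^ (2 * c) := by
    have : (l:ℝ) * l + 2 ≤ 2 * ((l:ℝ) + 1) ^ 2 := by nlinarith
    calc _ ≤ (2 * ((l:ℝ) + 1) ^ 2) ^ c := pow_le_pow_left₀ (by positivity) this _
      _ = _ := by rw [mul_pow, ← pow_mul]
  have step1 : 10 * (X * (2 ^ l * P) * x) * ((l:ℝ) * l + 2) ^ c * N < δ := by
    refine lt_of_le_of_lt ?_ hasy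
    have f1 : (2:ℝ) ^ l * P * ((l:ℝ) * l + 2) ^ c * N * x ≤
        (2:ℝ) ^ l * ((c + 6) * ((l:ℝ) + 1) ^ 2) * (2 ^ c * ((l:ℝ) + 1) ^ (2 * c)) * ((c + 2) * ((l:ℝ) + 1) ^ 2) * y := by
      gcongr
    calc _ = 10 * X * ((2:ℝ) ^ l * P * ((l:ℝ) * l + 2) ^ c * N * x) := by ring
      _ ≤ 10 * X * ((2:ℝ) ^ l * ((c + 6) * ((l:ℝ) + 1) ^ 2) * (2 ^ c * ((l:ℝ) + 1) ^ (2 * c)) * ((c + 2) * ((l:ℝ) + 1) ^ 2) * y) :=
          mul_le_mul_of_nonneg_left f1 (by positivity)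
      _ = _ := by rw [pow_add]; ring
  have h3 : 10 * (X * (2 ^ l * P) * x) * ((l:ℝ) * l + 2) ^ c < δ / N := by
    rw [lt_div_iff₀ hN0]
    exact step1
  calc _ = (10 * (X * (2 ^ l * P) * x) * ((l:ℝ) * l + 2) ^ c) * B := by rw [hE]; ring
    _ < δ / N * B := mul_lt_mul_of_pos_right h3 hB

/-- the event: shell `i` of `c` blocks is large -/
def EvC (q m g t₁ l b c i : ℕ) (wm : ℕ → ℕ → ℝ) (J : ℕ) : Prop :=
  i ≤ tt q (l * l * c) J ∧ (q : ℝ) ^ (-(534 / 1000 * i : ℝ)) <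
        Fs q i (l * l * c) (pw l (l * c)) (q ^ tt q (l * l * c) J) (OMc q m g t₁ l l 3200 (J + l * l * b) wm c J)
          (yy q (J - l * l * c))

/-- the event: the high frequencies of `c` blocks are large -/
def EvH (q m g t₁ l b c : ℕ) (wm : ℕ → ℕ → ℝ) (J : ℕ) : Prop :=
  (2 : ℝ) ^ (4 * (l * l) - 536 / 1000 * (l * l * c) : ℝ) < ∑ κ ∈ bx0 (4 ^ (l * l)),
    Fk (l * l * c) (pw l (l * c)) (q ^ tt q (l * l * c) J)
      (OMc q m g t₁ l l 3200 (J + l * l * b) wm c J) κ (yy q (J - l * l * c))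

/-- pattern of digit numbers -/
def patC (q l c J' : ℕ) : Fin c → ℕ := fun j => tt q (l * l) (J' + l * l * c - l * l * j)

theorem patC_mem {q l c J' : ℕ} (hq : 2 ≤ q) : patC q l c J' ∈ Fintype.piFinset (fun _ : Fin c => range (l * l + 2)) := by
  rw [Fintype.mem_piFinset]
  intro j
  rw [mem_range]
  have h1 : l * l * ((j:ℕ) + 1) ≤ l * l * c := Nat.mul_le_mul_left _ j.2
  have h2 : l * l * ((j:ℕ) + 1) = l * l * j + l * l := by ring
  exact tt_lt hq (by omega)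

theorem patC_congr {q m g t₁ l b c J J' : ℕ} {wm : ℕ → ℕ → ℝ} (h : patC q l c J = patC q l c J') :
    tt q (l * l * c) (J + l * l * c) = tt q (l * l * c) (J' + l * l * c) ∧
    OMc q m g t₁ l l 3200 (J + l * l * c + l * l * b) wm c (J + l * l * c) =
      OMc q m g t₁ l l 3200 (J' + l * l * c + l * l * b) wm c (J' + l * l * c) :=
  OMc_congr (by omega) (by omega) (fun j hj => congrFun h ⟨j, hj⟩)

theorem evC1 {q m g t₁ l b c i : ℕ} {wm : ℕ → ℕ → ℝ} (hq35 : q = 3 ∨ q = 5) (hm : 1 ≤ m) (hg : 1 ≤ g)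
    (hwm : MK q m kk wm) {θ δ Ch : ℝ} (hδ : 0 < δ) (hCh : 1 ≤ Ch) (hl : 1 ≤ l)
    (hWt : Wt (l * l * c) (pw l (l * c)))
    (hHP : HP (l * l * c) (pw l (l * c)) hh (Ch * 2 ^ l * (((l * l * c : ℕ) : ℝ) + l + 4) * (2 : ℝ) ^ (-(hh * ((l * l * c : ℕ) : ℝ)))) 1)
    (ht₁ : θ * (l:ℝ) ^ 2 ≤ t₁) (htt : ∀ J, l * l ≤ J → t₁ + g ≤ tt q (l * l) J)
    (hasy : (10 * (6400 * ((17 + 64 * (q : ℝ) ^ (kk * m)) ^ c) ^ 2 * Ch * (q : ℝ) ^ 2) * ((c + 2) * (c + 6) * 2 ^ c)) *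
      (2 ^ l * ((l:ℝ) + 1) ^ (2 * c + 4) * (2:ℝ) ^ (-((28 / 10000 * θ) * (l:ℝ) ^ 2))) < δ)
    (hi : t₁ < i) {W a : ℕ} (hW : 0 < W) (ha : l * l * c ≤ a) :
    ∃ K₀ : ℕ, ∀ K ≥ K₀, ∀ J : ℕ, cnt K (fun n => EvC q m g t₁ l b c i wm (J + a + n * W)) ≤
      δ / (l * l * c + 2) * K := by
  have hq : 2 ≤ q := by rcases hq35 with h | h <;> omega
  have hqr : (0:ℝ) < q := by exact_mod_cast (by omega : 0 < q)
  have hlr : (1:ℝ) ≤ l := by exact_mod_cast hl
  have hN : (0:ℝ) < l * l * c + 2 := by positivity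
  have hc0 : (0:ℝ) ≤ c := Nat.cast_nonneg c
  refine mwc hq35 hW (Fintype.piFinset (fun _ : Fin c => range (l * l + 2)))
      (fun J' => patC q l c J') 0 (fun J' _ => patC_mem hq)
      (fun J' y => if i ≤ tt q (l * l * c) (J' + l * l * c) then
        Fs q i (l * l * c) (pw l (l * c)) (q ^ tt q (l * l * c) (J' + l * l * c))
          (OMc q m g t₁ l l 3200 (J' + l * l * c + l * l * b) wm c (J' + l * l * c)) y else 0)
      ?_ ?_ ?_
      (M := 6400 * ((17 + 64 * (q : ℝ) ^ (kk * m)) ^ c) ^ 2 * Ch * (q : ℝ) ^ 2 * (2 ^ l * (((l * l * c : ℕ) : ℝ) + l + 4)) * (q : ℝ) ^ (-(5368 / 10000 * i : ℝ)))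
      (B := (q : ℝ) ^ (-(534 / 1000 * i : ℝ))) (del := δ / (l * l * c + 2)) ?_ (by positivity) (by positivity) ?_
      (fun J n => J + a + n * W - l * l * c) (a - l * l * c) (by omega) (fun J n => by omega) _ ?_
  · intro J' _ J'' _ h
    obtain ⟨h1, h2⟩ := patC_congr (m := m) (g := g) (t₁ := t₁) (b := b) (wm := wm) h
    funext y
    simp only [h1, h2]
  · intro J' _
    by_cases hcase : i ≤ tt q (l * l * c) (J' + l * l * c)
    · simp only [if_pos hcase]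
      exact (Pool.FD.fct (l * l * c) (pw l (l * c)) _ _ 0 q i).2
    · simp only [if_neg hcase]
      exact continuous_const
  · intro J' _ y
    by_cases hcase : i ≤ tt q (l * l * c) (J' + l * l * c)
    · simp only [if_pos hcase]
      exact Fs_nonneg _ _ _ _ _ _ _
    · simp only [if_neg hcase]
      exact le_rfl
  · intro J' _
    by_cases hcase : i ≤ tt q (l * l * c) (J' + l * l * c)
    · simp only [if_pos hcase]
      exact mean_Fs hq hWt (by linarith) (by positivity) hHP (tt_pow hq (by omega))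
        (fun z₁ z₂ => OMc_nonneg hwm z₁ z₂)
        (reg_OMc hq hm hg htt hwm (by omega)) (by omega) hcase
    · simp only [if_neg hcase, intervalIntegral.integral_zero]
      positivity
  · rw [Fintype.card_piFinset_const, card_range]
    refine szC (c := c) hlr (by positivity) (by positivity) (by positivity)
      (x := (q : ℝ) ^ (-(28 / 10000 * i : ℝ))) ?_ (qdec hq (by norm_num) ht₁ hi) hN ?_ ?_ hasy
    · rw [← Real.rpow_add hqr]
      congr 1
      ring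
    · nlinarith [mul_nonneg hc0 (by linarith : (0:ℝ) ≤ l)]
    · push_cast
      nlinarith [mul_nonneg hc0 (by linarith : (0:ℝ) ≤ l)]
  · intro J n hn
    obtain ⟨h3, h4⟩ := hn
    have e2 : J + a + n * W - l * l * c + l * l * c = J + a + n * W := by omega
    rw [e2, if_pos h3]
    exact h4

theorem evH1 {q m g t₁ l b c : ℕ} {wm : ℕ → ℕ → ℝ} (hq35 : q = 3 ∨ q = 5) (hm : 1 ≤ m) (hg : 1 ≤ g)
    (hwm : MK q m kk wm) {δ Ch : ℝ} (hδ : 0 < δ) (hCh : 1 ≤ Ch) (hl : 1 ≤ l)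
    (hWt : Wt (l * l * c) (pw l (l * c)))
    (hHP : HP (l * l * c) (pw l (l * c)) hh (Ch * 2 ^ l * (((l * l * c : ℕ) : ℝ) + l + 4 +
      Real.logb 2 ((4 ^ (l * l) : ℕ) : ℝ)) * (2 : ℝ) ^ (-(hh * ((l * l * c : ℕ) : ℝ)))) ((4 ^ (l * l) : ℕ) : ℝ))
    (htt : ∀ J, l * l ≤ J → t₁ + g ≤ tt q (l * l) J)
    (hasy : (10 * (760 * ((17 + 64 * (q : ℝ) ^ (kk * m)) ^ c) ^ 2 * Ch * (q : ℝ)) * ((c + 2) * (c + 6) * 2 ^ c)) *
      (2 ^ l * ((l:ℝ) + 1) ^ (2 * c + 4) * (2:ℝ) ^ (-((8 / 10000 * c) * (l:ℝ) ^ 2))) < δ)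
    {W a : ℕ} (hW : 0 < W) (ha : l * l * c ≤ a) :
    ∃ K₀ : ℕ, ∀ K ≥ K₀, ∀ J : ℕ, cnt K (fun n => EvH q m g t₁ l b c wm (J + a + n * W)) ≤ δ * K := by
  have hq : 2 ≤ q := by rcases hq35 with h | h <;> omega
  have hqr : (0:ℝ) < q := by exact_mod_cast (by omega : 0 < q)
  have hlr : (1:ℝ) ≤ l := by exact_mod_cast hl
  have hc0 : (0:ℝ) ≤ c := Nat.cast_nonneg c
  refine mwc hq35 hW (Fintype.piFinset (fun _ : Fin c => range (l * l + 2)))
      (fun J' => patC q l c J') 0 (fun J' _ => patC_mem hq)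
      (fun J' y => ∑ κ ∈ bx0 (4 ^ (l * l)),
        Fk (l * l * c) (pw l (l * c)) (q ^ tt q (l * l * c) (J' + l * l * c))
          (OMc q m g t₁ l l 3200 (J' + l * l * c + l * l * b) wm c (J' + l * l * c)) κ y)
      ?_ ?_ ?_
      (M := 760 * ((17 + 64 * (q : ℝ) ^ (kk * m)) ^ c) ^ 2 * Ch * (q : ℝ) * (2 ^ l * (((l * l * c : ℕ) : ℝ) + l + 4 + 2 * ((l * l : ℕ) : ℝ))) *
        (2 : ℝ) ^ (4 * ((l * l : ℕ) : ℝ) - 5368 / 10000 * ((l * l * c : ℕ) : ℝ)))
      (B := (2 : ℝ) ^ (4 * (l * l) - 536 / 1000 * (l * l * c) : ℝ)) (del := δ) ?_ (by positivity) hδ ?_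
      (fun J n => J + a + n * W - l * l * c) (a - l * l * c) (by omega) (fun J n => by omega) _ ?_
  · intro J' _ J'' _ h
    obtain ⟨h1, h2⟩ := patC_congr (m := m) (g := g) (t₁ := t₁) (b := b) (wm := wm) h
    funext y
    simp only [h1, h2]
  · intro J' _
    exact continuous_finsetSum _ fun κ _ => (Pool.FD.fct (l * l * c) (pw l (l * c)) _ _ κ 0 0).1
  · intro J' _ y
    exact sum_nonneg fun κ _ => Fk_nonneg _ _ _ _ _ _
  · intro J' _
    exact mean_Hi hq hWt (by linarith) hHP (tt_pow hq (by omega)) (fun z₁ z₂ => OMc_nonneg hwm z₁ z₂)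
        (reg_OMc hq hm hg htt hwm (by omega))
  · rw [Fintype.card_piFinset_const, card_range]
    have h := szC (c := c) (N := 1) (δ := δ) (B := (2 : ℝ) ^ (4 * (l * l) - 536 / 1000 * (l * l * c) : ℝ))
      (X := 760 * ((17 + 64 * (q : ℝ) ^ (kk * m)) ^ c) ^ 2 * Ch * (q : ℝ))
      (P := ((l * l * c : ℕ) : ℝ) + l + 4 + 2 * ((l * l : ℕ) : ℝ))
      (E := (2 : ℝ) ^ (4 * ((l * l : ℕ) : ℝ) - 5368 / 10000 * ((l * l * c : ℕ) : ℝ)))
      (x := (2:ℝ) ^ (-((8 / 10000 * c) * (l:ℝ) ^ 2))) (y := (2:ℝ) ^ (-((8 / 10000 * c) * (l:ℝ) ^ 2)))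
      hlr (by positivity) (by positivity) (by positivity) (by
        rw [← Real.rpow_add (by norm_num)]
        congr 1
        push_cast
        ring) le_rfl (by norm_num) (by nlinarith [mul_nonneg hc0 (by positivity : (0:ℝ) ≤ ((l:ℝ) + 1) ^ 2)]) (by
        push_cast
        nlinarith [mul_nonneg hc0 (by linarith : (0:ℝ) ≤ l)]) hasy
    rwa [div_one] at h
  · intro J n hn
    have e2 : J + a + n * W - l * l * c + l * l * c = J + a + n * W := by omega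
    rw [e2]
    exact hn

/-- bad positions for `c` blocks -/
theorem evC (hps : HPSStmt) (glp : GLPStmt) (marg : MARGStmt) (q : ℕ) (hq35 : q = 3 ∨ q = 5) (m g c : ℕ)
    (hc : 1 ≤ c) (hm : 1 ≤ m) (hg : 1 ≤ g) (θ δ : ℝ) (hθ : 0 < θ) (hδ : 0 < δ) :
    ∃ l₀ : ℕ, ∀ l ≥ l₀, ∀ wm : ℕ → ℕ → ℝ, MK q m kk wm → ∀ t₁ : ℕ, θ * (l:ℝ) ^ 2 ≤ t₁ →
    (∀ J, l * l ≤ J → t₁ + g ≤ tt q (l * l) J) → ∀ b W a : ℕ, 0 < W → l * l * c ≤ a →
    ∃ K₀ : ℕ, ∀ K ≥ K₀, ∀ J : ℕ, cnt K (fun n => ¬ GoodC q m g t₁ l l 3200 (J + a + n * W + l * l * b) wm c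
      (J + a + n * W) (4 ^ (l * l))) ≤ δ * K := by
  have hq : 2 ≤ q := by rcases hq35 with h | h <;> omega
  obtain ⟨Ch, hCh, l1, hps⟩ := hps
  obtain ⟨l2, hmarg⟩ := marg eb (by unfold eb; norm_num)
  have hcr : (0:ℝ) < c := by exact_mod_cast hc
  obtain ⟨l3, hasy⟩ := asy (10 * (6400 * ((17 + 64 * (q : ℝ) ^ (kk * m)) ^ c) ^ 2 * Ch * (q : ℝ) ^ 2) * ((c + 2) * (c + 6) * 2 ^ c))
    (2 * c + 4) (28 / 10000 * θ) (δ / 2) (by positivity) (by positivity)
  obtain ⟨l4, hasy'⟩ := asy (10 * (760 * ((17 + 64 * (q : ℝ) ^ (kk * m)) ^ c) ^ 2 * Ch * (q : ℝ)) * ((c + 2) * (c + 6) * 2 ^ c))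
    (2 * c + 4) (8 / 10000 * c) (δ / 2) (by positivity) (by positivity)
  refine ⟨max (max (max l1 l4) l2) (max l3 1), fun l hl wm hwm t₁ ht₁ htt b W a hW ha => ?_⟩
  have hl1 : l1 ≤ l := (le_max_left _ _).trans ((le_max_left _ _).trans ((le_max_left _ _).trans hl))
  have hl4 : l4 ≤ l := (le_max_right _ _).trans ((le_max_left _ _).trans ((le_max_left _ _).trans hl))
  have hl2 : l2 ≤ l := (le_max_right _ _).trans ((le_max_left _ _).trans hl)
  have hl3 : l3 ≤ l := (le_max_left _ _).trans ((le_max_right _ _).trans hl)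
  have hl0 : 1 ≤ l := (le_max_right _ _).trans ((le_max_right _ _).trans hl)
  have hlr : (1:ℝ) ≤ l := by exact_mod_cast hl0
  have hNp : (0:ℝ) < l * l * c + 2 := by positivity
  obtain ⟨hWt, -⟩ := glp l (hmarg l hl2) (l * c)
  have hHP := hps l hl1 (l * c) 1 le_rfl
  rw [Real.logb_one, add_zero] at hHP
  have h4 : (1:ℝ) ≤ ((4 ^ (l * l) : ℕ) : ℝ) := by
    exact_mod_cast Nat.one_le_pow _ _ (by norm_num)
  have hHQ := hps l hl1 (l * c) ((4 ^ (l * l) : ℕ) : ℝ) h4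
  have eL : l * (l * c) = l * l * c := (mul_assoc l l c).symm
  have eR : (l:ℝ) * ((l * c : ℕ) : ℝ) = ((l * l * c : ℕ) : ℝ) := by push_cast; ring
  rw [eL] at hWt hHP hHQ
  rw [eR] at hHP hHQ
  have key : ∀ i ∈ Ioc t₁ (l * l * c + 1), ∃ K₀ : ℕ, ∀ K ≥ K₀, ∀ J : ℕ,
      cnt K (fun n => EvC q m g t₁ l b c i wm (J + a + n * W)) ≤ δ / 2 / (l * l * c + 2) * K := by
    intro i hi
    rw [mem_Ioc] at hi
    exact evC1 hq35 hm hg hwm (by positivity) hCh hl0 hWt hHP ht₁ htt (hasy l hl3) hi.1 hW ha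
  obtain ⟨K₀, hK⟩ := un2 _ _ _ _
    (un (Ioc t₁ (l * l * c + 1)) (fun i J n => EvC q m g t₁ l b c i wm (J + a + n * W)) _ key)
    (evH1 (b := b) hq35 hm hg hwm (by positivity) hCh hl0 hWt hHQ htt (hasy' l hl4) hW ha)
  refine ⟨K₀, fun K hK' J => ?_⟩
  have hcard : ((Ioc t₁ (l * l * c + 1)).card : ℝ) * (δ / 2 / (l * l * c + 2)) + δ / 2 ≤ δ := by
    have c2 : ((Ioc t₁ (l * l * c + 1)).card : ℝ) ≤ l * l * c + 2 := by
      rw [Nat.card_Ioc]
      have : l * l * c + 1 - t₁ ≤ l * l * c + 2 := by omega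
      exact_mod_cast this
    have : ((Ioc t₁ (l * l * c + 1)).card : ℝ) * (δ / 2 / (l * l * c + 2)) ≤ δ / 2 := by
      calc _ ≤ (l * l * c + 2) * (δ / 2 / (l * l * c + 2)) := mul_le_mul_of_nonneg_right c2 (by positivity)
        _ = δ / 2 := by field_simp
    linarith
  refine (cnt_mono fun n hn => ?_).trans ((hK K hK' J).trans (mul_le_mul_of_nonneg_right hcard (Nat.cast_nonneg K)))
  unfold GoodC at hn
  rw [not_and_or] at hn
  rcases hn with hn | hn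
  · push Not at hn
    obtain ⟨i, hi, h4⟩ := hn
    refine Or.inl ⟨i, ?_, (mem_Ioc.1 hi).2, h4⟩
    rw [mem_Ioc] at hi ⊢
    refine ⟨hi.1, ?_⟩
    have := tt_lt (q := q) (W := l * l * c) (J := J + a + n * W) hq (by omega)
    omega
  · exact Or.inr (not_le.1 hn)

end Pool.FD.AV

namespace Pool.Agent.H24.FD
open Finset Pool.K2 Pool.FD Pool.FD.AV MeasureTheory

/-- **AVF** -/
theorem avf (hps : HPSStmt) (dkm : DKMStmt) (glp : GLPStmt) (marg : MARGStmt) : AVFStmt := by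
  intro q hq35 m g T hm hg θ hθ δ hδ
  have hT : (0:ℝ) < 3200 + T := by positivity
  obtain ⟨l1, h1⟩ := evP hps glp marg q hq35 m g hm hg θ (δ / (3 * (3200 + T))) hθ (by positivity)
  obtain ⟨l2, h2⟩ := evD dkm q hq35 1100 θ (δ / (3 * (3200 + T))) hθ (by positivity)
  obtain ⟨l3, h3⟩ := evC hps glp marg q hq35 m g 1100 (by norm_num) hm hg θ (δ / (3 * (3200 + T))) hθ (by positivity)
  refine ⟨max (max l1 l2) (max l3 1), fun l hl wm hwm t₁ ht₁ htt W hW => ?_⟩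
  have hl1 : l1 ≤ l := (le_max_left _ _).trans ((le_max_left _ _).trans hl)
  have hl2 : l2 ≤ l := (le_max_right _ _).trans ((le_max_left _ _).trans hl)
  have hl3 : l3 ≤ l := (le_max_left _ _).trans ((le_max_right _ _).trans hl)
  have hl0 : 1 ≤ l := (le_max_right _ _).trans ((le_max_right _ _).trans hl)
  have hll : 0 < l * l := Nat.mul_pos hl0 hl0
  have hWb : ∀ b < 3200 + T, l * l * b + l * l ≤ W := by
    intro b hb
    rw [hW, ← Nat.mul_succ]
    exact Nat.mul_le_mul_left _ hb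
  have hW0 : 0 < W := by
    have := hWb 0 (by omega)
    omega
  have key : ∀ b ∈ range (3200 + T), ∃ K₀ : ℕ, ∀ K ≥ K₀, ∀ J : ℕ,
      cnt K (fun n => (¬ GoodP q m g t₁ l l wm (J + (W - l * l * b) + n * W) ∨
        ¬ GoodD q t₁ l l 1100 (J + (W - l * l * b) + n * W) (4 ^ (l * l))) ∨
        (b + 1100 ≤ 3200 + T ∧ ¬ GoodC q m g t₁ l l 3200 (J + (W - l * l * b) + n * W + l * l * b) wm 1100
          (J + (W - l * l * b) + n * W) (4 ^ (l * l)))) ≤
      (δ / (3 * (3200 + T)) + δ / (3 * (3200 + T)) + δ / (3 * (3200 + T))) * K := by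
    intro b hb
    rw [mem_range] at hb
    have hWb' := hWb b hb
    refine un2 _ _ _ _ (un2 _ _ _ _ (h1 l hl1 wm hwm t₁ ht₁ htt W (W - l * l * b) hW0 (by omega))
      (h2 l hl2 t₁ ht₁ W (W - l * l * b) hW0)) ?_
    by_cases hcase : b + 1100 ≤ 3200 + T
    · have ha : l * l * 1100 ≤ W - l * l * b := by
        have : l * l * (b + 1100) ≤ W := by
          rw [hW]; exact Nat.mul_le_mul_left _ hcase
        rw [Nat.mul_add] at this
        omega
      obtain ⟨K₀, hK⟩ := h3 l hl3 wm hwm t₁ ht₁ htt b W (W - l * l * b) hW0 ha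
      exact ⟨K₀, fun K hK' J => (cnt_mono fun n hn => hn.2).trans (hK K hK' J)⟩
    · refine ⟨0, fun K _ J => ?_⟩
      refine (cnt_mono (Q := fun _ => False) fun n hn => hcase hn.1).trans ?_
      rw [← cnt_eq (iP := fun _ => instDecidableFalse)]
      simp only [filter_false, card_empty, Nat.cast_zero]
      positivity
  obtain ⟨K₀, hK⟩ := un (range (3200 + T)) (fun b J n => (¬ GoodP q m g t₁ l l wm (J + (W - l * l * b) + n * W) ∨
        ¬ GoodD q t₁ l l 1100 (J + (W - l * l * b) + n * W) (4 ^ (l * l))) ∨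
        (b + 1100 ≤ 3200 + T ∧ ¬ GoodC q m g t₁ l l 3200 (J + (W - l * l * b) + n * W + l * l * b) wm 1100
          (J + (W - l * l * b) + n * W) (4 ^ (l * l)))) _ key
  refine ⟨K₀, fun K hK' J => ?_⟩
  have hcard : ((range (3200 + T)).card : ℝ) *
      (δ / (3 * (3200 + T)) + δ / (3 * (3200 + T)) + δ / (3 * (3200 + T))) = δ := by
    rw [card_range]
    push_cast
    field_simp
    ring
  rw [cnt_eq]
  refine (cnt_mono fun n hn => ?_).trans ((hK K hK' J).trans (by rw [hcard]))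
  unfold WGood at hn
  push Not at hn
  obtain ⟨b, hb1, hb2, hn⟩ := hn
  have hWb' := hWb b hb2
  have e1 : (n + 1) * W = n * W + W := by ring
  have e2 : J + (n + 1) * W - l * l * b = J + (W - l * l * b) + n * W := by omega
  have e3 : J + (n + 1) * W = J + (W - l * l * b) + n * W + l * l * b := by omega
  refine ⟨b, mem_range.2 hb2, ?_⟩
  by_contra hcon
  push Not at hcon
  obtain ⟨⟨c1, c2⟩, c3⟩ := hcon
  rw [e2, e3] at hn
  obtain ⟨d1, d2⟩ := hn c1 c2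
  exact d2 (c3 d1)

end Pool.Agent.H24.FD
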