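import Pool.Agent.H84.FD.S2
import Pool.Agent.H42.K2.Par

/-! MP_1f2761: row TMJ, a trigonometric majorant. -/

namespace Pool.FD
open Finset Pool.K2

theorem tmj_pu {P : ℕ} (hP : 1 ≤ P) (x : ℝ) :
    ∑ z ∈ range P, fe P (x - ((z:ℝ) + 1/2) / P) = 1 := by
  have hP0 : (P:ℝ) ≠ 0 := by
    have : P ≠ 0 := by omega
    exact_mod_cast this
  have h := parseval_one hP (fun j : ℕ => ex (j * (x - 1 / (2 * P))))
  have h1 : ∀ z ∈ range P, fe P (x - ((z:ℝ) + 1/2) / P) =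
      ‖∑ j ∈ range P, ex (j * (x - 1 / (2 * P))) * ex (-((z : ℝ) * j / P))‖ ^ 2 / (P:ℝ) ^ 2 := by
    intro z _
    unfold fe
    congr 3
    refine Finset.sum_congr rfl fun j _ => ?_
    rw [← ex_add]
    congr 1
    field_simp
    ring
  rw [Finset.sum_congr rfl h1, ← Finset.sum_div, h]
  simp only [ex_norm]
  rw [Finset.sum_const, card_range]
  field_simp
  simp

theorem tmj_idx {P : ℕ} (hP : 1 ≤ P) (x : ℝ) :
    ∃ k' : ℤ, ∃ f : ℝ, 0 ≤ f ∧ f < 1 ∧ (⌊(P:ℝ) * x⌋ % (P:ℤ)).toNat < P ∧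
      (P:ℝ) * x = ((⌊(P:ℝ) * x⌋ % (P:ℤ)).toNat : ℝ) + P * k' + f := by
  have hPz : (0:ℤ) < P := by exact_mod_cast hP
  have h0 := Int.emod_nonneg ⌊(P:ℝ) * x⌋ hPz.ne'
  have h1 := Int.emod_lt_of_pos ⌊(P:ℝ) * x⌋ hPz
  refine ⟨⌊(P:ℝ) * x⌋ / P, Int.fract ((P:ℝ) * x), Int.fract_nonneg _, Int.fract_lt_one _, by omega, ?_⟩
  have h2 : (((⌊(P:ℝ) * x⌋ % (P:ℤ)).toNat : ℤ)) = ⌊(P:ℝ) * x⌋ % (P:ℤ) := Int.toNat_of_nonneg h0
  have h3 : (⌊(P:ℝ) * x⌋ : ℤ) = ((⌊(P:ℝ) * x⌋ % (P:ℤ)).toNat : ℤ) + P * (⌊(P:ℝ) * x⌋ / P) := by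
    rw [h2]; exact (Int.emod_add_mul_ediv _ _).symm
  have h4 : ((⌊(P:ℝ) * x⌋ : ℤ) : ℝ) = ((⌊(P:ℝ) * x⌋ % (P:ℤ)).toNat : ℝ) + P * ((⌊(P:ℝ) * x⌋ / P : ℤ) : ℝ) := by
    exact_mod_cast h3
  rw [← h4]
  exact (Int.floor_add_fract _).symm

theorem tmj_far {P R : ℕ} (hP : 1 ≤ P) (x : ℝ) (z : ℕ)
    (h1 : (R:ℤ) + 1 ≤ |(((⌊(P:ℝ) * x⌋ % (P:ℤ)).toNat : ℤ)) - z|)
    (h2 : |(((⌊(P:ℝ) * x⌋ % (P:ℤ)).toNat : ℤ)) - z| ≤ P - R - 1) :
    fe P (x - ((z:ℝ) + 1/2) / P) ≤ 1 / (2 * R + 1) ^ 2 := by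
  have hP0 : (0:ℝ) < P := by exact_mod_cast hP
  obtain ⟨k', f, hf0, hf1, _, he⟩ := tmj_idx hP x
  set i0 := (⌊(P:ℝ) * x⌋ % (P:ℤ)).toNat with hi0
  set y := x - ((z:ℝ) + 1/2) / P with hy
  have hn : ((R:ℝ) + 1/2) / P ≤ nn y := by
    unfold nn
    set n := round y
    rw [div_le_iff₀ hP0]
    have e1 : |y - n| * P = |(((i0:ℤ) - z + P * (k' - n) : ℤ) : ℝ) + (f - 1/2)| := by
      have e0 : |y - n| * P = |(y - n) * P| := by rw [abs_mul, abs_of_pos hP0]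
      rw [e0]
      congr 1
      have : y * P = P * x - ((z:ℝ) + 1/2) := by
        rw [hy]; field_simp
      rw [sub_mul, this, he]
      push_cast
      ring
    rw [e1]
    have hd : (R:ℤ) + 1 ≤ |(i0:ℤ) - z + P * (k' - n)| := by
      rcases lt_trichotomy (k' - n) 0 with h | h | h
      · have h3 : (P:ℤ) * (k' - n) ≤ -P := by
          have : k' - n ≤ -1 := by omega
          have hPz : (0:ℤ) ≤ P := by positivity
          nlinarith
        have h4 := le_abs_self ((i0:ℤ) - z)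
        have h5 := neg_abs_le ((i0:ℤ) - z + P * (k' - n))
        omega
      · rw [h, mul_zero, add_zero]; exact h1
      · have h3 : (P:ℤ) ≤ P * (k' - n) := by
          have : 1 ≤ k' - n := by omega
          have hPz : (0:ℤ) ≤ P := by positivity
          nlinarith
        have h4 := neg_abs_le ((i0:ℤ) - z)
        have h5 := le_abs_self ((i0:ℤ) - z + P * (k' - n))
        omega
    have hd' : (R:ℝ) + 1 ≤ |(((i0:ℤ) - z + P * (k' - n) : ℤ) : ℝ)| := by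
      rw [← Int.cast_abs]; exact_mod_cast hd
    have hf : |f - 1/2| ≤ 1/2 := by rw [abs_le]; constructor <;> linarith
    have h6 := abs_sub_abs_le_abs_add (((i0:ℤ) - z + P * (k' - n) : ℤ) : ℝ) (f - 1/2)
    linarith
  have h3 := fe_le P y
  have h4 : (2 * (R:ℝ) + 1) ≤ 2 * P * nn y := by
    rw [div_le_iff₀ hP0] at hn
    linarith
  have h5 : (2 * (R:ℝ) + 1) ^ 2 ≤ (2 * P * nn y) ^ 2 := by
    have : 0 ≤ 2 * (R:ℝ) + 1 := by positivity
    exact pow_le_pow_left₀ this h4 2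
  rw [le_div_iff₀ (by positivity)]
  calc fe P y * (2 * (R:ℝ) + 1) ^ 2 ≤ fe P y * (2 * P * nn y) ^ 2 :=
        mul_le_mul_of_nonneg_left h5 (fe_nonneg _ _)
    _ ≤ 1 := h3

/-- `D`: the cells deep inside -/
def tmjD (c : ℝ) (P R z1 z2 : ℕ) : Prop :=
  R ≤ z1 ∧ ((z1:ℝ) + 1 + R) + c * P < (z2:ℝ) - R ∧ ((z2:ℝ) + 1 + R) < (1 - c) * P

theorem tmj_fract {P : ℕ} (hP : 1 ≤ P) (x : ℝ) :
    (((⌊(P:ℝ) * x⌋ % (P:ℤ)).toNat : ℝ)) ≤ P * Int.fract x ∧ P * Int.fract x < ((⌊(P:ℝ) * x⌋ % (P:ℤ)).toNat : ℝ) + 1 := by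
  have hP0 : (0:ℝ) < P := by exact_mod_cast hP
  obtain ⟨k', f, hf0, hf1, hlt, he⟩ := tmj_idx hP x
  set i0 := (⌊(P:ℝ) * x⌋ % (P:ℤ)).toNat with hi0
  have hx : x = k' + ((i0:ℝ) + f) / P := by
    field_simp
    linear_combination he
  have hi0' : (i0:ℝ) + 1 ≤ P := by exact_mod_cast hlt
  have hfr : Int.fract x = ((i0:ℝ) + f) / P := by
    rw [hx, Int.fract_intCast_add, Int.fract_eq_self]
    constructor
    · positivity
    · rw [div_lt_one hP0]; linarith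
  rw [hfr]
  constructor
  · rw [mul_div_cancel₀ _ hP0.ne']; linarith
  · rw [mul_div_cancel₀ _ hP0.ne']; linarith

theorem tmj_near {P R : ℕ} (hP : 1 ≤ P) {c : ℝ} (hc : 0 < c) {x1 x2 : ℝ}
    (hF : ¬ (Int.fract x1 + c < Int.fract x2 ∧ Int.fract x2 < 1 - c)) {z1 z2 : ℕ} (hz1 : z1 < P) (hz2 : z2 < P)
    (hD : tmjD c P R z1 z2) :
    ((R:ℤ) + 1 ≤ |(((⌊(P:ℝ) * x1⌋ % (P:ℤ)).toNat : ℤ)) - z1| ∧ |(((⌊(P:ℝ) * x1⌋ % (P:ℤ)).toNat : ℤ)) - z1| ≤ P - R - 1) ∨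
    ((R:ℤ) + 1 ≤ |(((⌊(P:ℝ) * x2⌋ % (P:ℤ)).toNat : ℤ)) - z2| ∧ |(((⌊(P:ℝ) * x2⌋ % (P:ℤ)).toNat : ℤ)) - z2| ≤ P - R - 1) := by
  have hP0 : (0:ℝ) < P := by exact_mod_cast hP
  obtain ⟨_, _, _, _, hl1, _⟩ := tmj_idx hP x1
  obtain ⟨_, _, _, _, hl2, _⟩ := tmj_idx hP x2
  have ha := tmj_fract hP x1
  have hb := tmj_fract hP x2
  set i0 := (⌊(P:ℝ) * x1⌋ % (P:ℤ)).toNat with hi0
  set j0 := (⌊(P:ℝ) * x2⌋ % (P:ℤ)).toNat with hj0
  obtain ⟨d1, d2, d3⟩ := hD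
  have hcP : 0 < c * P := by positivity
  -- integer consequences
  have e1 : z1 + 1 + R < z2 - R + 0 ∧ R ≤ z2 := by
    have h1 : ((z1:ℝ) + 1 + R) < (z2:ℝ) - R := by linarith
    have h2 : z1 + 1 + R + R < z2 := by
      have : ((z1 + 1 + R + R : ℕ):ℝ) < z2 := by push_cast; linarith
      exact_mod_cast this
    omega
  have e2 : z2 + 1 + R < P := by
    have : ((z2 + 1 + R : ℕ):ℝ) < P := by push_cast; nlinarith
    exact_mod_cast this
  by_contra hcon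
  push Not at hcon
  obtain ⟨c1, c2⟩ := hcon
  have f1 : |(i0:ℤ) - z1| ≤ R := by
    by_contra h
    push Not at h
    have := c1 (by omega)
    rcases abs_cases ((i0:ℤ) - z1) with ⟨h5, _⟩ | ⟨h5, _⟩ <;> omega
  have f2 : |(j0:ℤ) - z2| ≤ R := by
    by_contra h
    push Not at h
    have := c2 (by omega)
    rcases abs_cases ((j0:ℤ) - z2) with ⟨h5, _⟩ | ⟨h5, _⟩ <;> omega
  have g1 : (i0:ℝ) ≤ z1 + R := by
    have : (i0:ℤ) ≤ z1 + R := by have := abs_le.1 f1; omega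
    exact_mod_cast this
  have g2 : (z2:ℝ) - R ≤ j0 := by
    have : (z2:ℤ) - R ≤ j0 := by have := abs_le.1 f2; omega
    exact_mod_cast this
  have g3 : (j0:ℝ) ≤ z2 + R := by
    have : (j0:ℤ) ≤ z2 + R := by have := abs_le.1 f2; omega
    exact_mod_cast this
  apply hF
  constructor
  · have : P * (Int.fract x1 + c) < P * Int.fract x2 := by nlinarith [ha.2, hb.1]
    exact lt_of_mul_lt_mul_left this hP0.le
  · have : P * Int.fract x2 < P * (1 - c) := by nlinarith [hb.2]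
    exact lt_of_mul_lt_mul_left this hP0.le

open Classical in
/-- indicator of the complement of the deep cells -/
noncomputable def tmjO (c : ℝ) (P R z1 z2 : ℕ) : ℝ := if tmjD c P R z1 z2 then 0 else 1

theorem tmj_low {P R : ℕ} (hP : 1 ≤ P) {c : ℝ} (hc : 0 < c) {x1 x2 : ℝ}
    (hF : ¬ (Int.fract x1 + c < Int.fract x2 ∧ Int.fract x2 < 1 - c)) :
    1 - 2 * P / (2 * R + 1) ^ 2 ≤ ∑ z1 ∈ range P, ∑ z2 ∈ range P, tmjO c P R z1 z2 *
      (fe P (x1 - ((z1:ℝ) + 1/2) / P) * fe P (x2 - ((z2:ℝ) + 1/2) / P)) := by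
  classical
  set F1 : ℕ → ℝ := fun z => fe P (x1 - ((z:ℝ) + 1/2) / P) with hF1
  set F2 : ℕ → ℝ := fun z => fe P (x2 - ((z:ℝ) + 1/2) / P) with hF2
  have p1 : ∑ z ∈ range P, F1 z = 1 := tmj_pu hP x1
  have p2 : ∑ z ∈ range P, F2 z = 1 := tmj_pu hP x2
  set e := (1:ℝ) / (2 * R + 1) ^ 2 with he
  have he0 : 0 ≤ e := by positivity
  -- pointwise: (1 - O) F1 F2 <= e F2 + e F1
  have hpt : ∀ z1 ∈ range P, ∀ z2 ∈ range P,
      F1 z1 * F2 z2 - tmjO c P R z1 z2 * (F1 z1 * F2 z2) ≤ e * F2 z2 + e * F1 z1 := by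
    intro z1 h1 z2 h2
    rw [mem_range] at h1 h2
    have n1 : 0 ≤ F1 z1 := fe_nonneg _ _
    have n2 : 0 ≤ F2 z2 := fe_nonneg _ _
    by_cases hD : tmjD c P R z1 z2
    · unfold tmjO
      rw [if_pos hD, zero_mul, sub_zero]
      rcases tmj_near hP hc hF h1 h2 hD with h | h
      · have := tmj_far hP x1 z1 h.1 h.2
        have h3 : F1 z1 * F2 z2 ≤ e * F2 z2 := mul_le_mul_of_nonneg_right this n2
        have : 0 ≤ e * F1 z1 := by positivity
        linarith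
      · have := tmj_far hP x2 z2 h.1 h.2
        have h3 : F1 z1 * F2 z2 ≤ F1 z1 * e := mul_le_mul_of_nonneg_left this n1
        have : 0 ≤ e * F2 z2 := by positivity
        linarith
    · unfold tmjO
      rw [if_neg hD, one_mul, sub_self]
      positivity
  have hsum : ∑ z1 ∈ range P, ∑ z2 ∈ range P, (F1 z1 * F2 z2 - tmjO c P R z1 z2 * (F1 z1 * F2 z2)) ≤
      ∑ z1 ∈ range P, ∑ z2 ∈ range P, (e * F2 z2 + e * F1 z1) :=
    sum_le_sum fun z1 h1 => sum_le_sum fun z2 h2 => hpt z1 h1 z2 h2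
  have hR : ∑ z1 ∈ range P, ∑ z2 ∈ range P, (e * F2 z2 + e * F1 z1) = 2 * P / (2 * R + 1) ^ 2 := by
    simp only [sum_add_distrib, ← mul_sum, p2, sum_const, card_range, nsmul_eq_mul, p1]
    rw [he]; ring
  have hL : ∑ z1 ∈ range P, ∑ z2 ∈ range P, (F1 z1 * F2 z2 - tmjO c P R z1 z2 * (F1 z1 * F2 z2)) =
      1 - ∑ z1 ∈ range P, ∑ z2 ∈ range P, tmjO c P R z1 z2 * (F1 z1 * F2 z2) := by
    simp only [sum_sub_distrib]
    congr 1
    simp only [← mul_sum, p2, mul_one, p1]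
  rw [hR, hL] at hsum
  linarith

theorem tmj_card {P R : ℕ} (hP : 1 ≤ P) {c : ℝ} (hc : 0 < c) :
    ∑ z1 ∈ range P, ∑ z2 ∈ range P, tmjO c P R z1 z2 ≤ (P:ℝ) ^ 2 / 2 + 2 * c * P ^ 2 + (4 * R + 6) * P := by
  classical
  have hP0 : (0:ℝ) < P := by exact_mod_cast hP
  have hcnt : ∀ t : ℝ, 0 ≤ t → (((range P).filter fun z2 : ℕ => (z2:ℝ) ≤ t).card : ℝ) ≤ t + 1 := by
    intro t ht
    have hs : ((range P).filter fun z2 : ℕ => (z2:ℝ) ≤ t) ⊆ range (⌊t⌋₊ + 1) := by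
      intro z hz
      rw [mem_filter] at hz
      rw [mem_range]
      have := Nat.le_floor hz.2
      omega
    have h1 := card_le_card hs
    rw [card_range] at h1
    have h2 : (((range P).filter fun z2 : ℕ => (z2:ℝ) ≤ t).card : ℝ) ≤ ((⌊t⌋₊ + 1 : ℕ) : ℝ) := by exact_mod_cast h1
    have h3 := Nat.floor_le ht
    push_cast at h2
    linarith
  have hcnt2 : ∀ t : ℝ, (((range P).filter fun z2 : ℕ => (P:ℝ) - t ≤ z2).card : ℝ) ≤ max t 0 + 1 := by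
    intro t
    have hs : ((range P).filter fun z2 : ℕ => (P:ℝ) - t ≤ z2) ⊆ Ico (P - ⌊max t 0⌋₊) P := by
      intro z hz
      rw [mem_filter, mem_range] at hz
      rw [mem_Ico]
      refine ⟨?_, hz.1⟩
      have h4 : ((P - z : ℕ) : ℝ) ≤ max t 0 := by
        rw [Nat.cast_sub hz.1.le]
        have := le_max_left t 0
        linarith [hz.2]
      have := Nat.le_floor h4
      omega
    have h1 := card_le_card hs
    rw [Nat.card_Ico] at h1
    have h2 : ((range P).filter fun z2 : ℕ => (P:ℝ) - t ≤ z2).card ≤ ⌊max t 0⌋₊ := by omega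
    have h3 := Nat.floor_le (le_max_right t 0)
    have h5 : (((range P).filter fun z2 : ℕ => (P:ℝ) - t ≤ z2).card : ℝ) ≤ ((⌊max t 0⌋₊ : ℕ) : ℝ) := by exact_mod_cast h2
    linarith
  have hrow : ∀ z1 ∈ range P, ∑ z2 ∈ range P, tmjO c P R z1 z2 ≤
      (if z1 < R then (P:ℝ) else 0) + (((z1:ℝ) + 1 + 2 * R + c * P) + 1) + ((c * P + 1 + R) + 1) := by
    intro z1 h1
    have hpt : ∀ z2 ∈ range P, tmjO c P R z1 z2 ≤ (if z1 < R then (1:ℝ) else 0) +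
        (if (z2:ℝ) ≤ (z1:ℝ) + 1 + 2 * R + c * P then 1 else 0) + (if (P:ℝ) - (c * P + 1 + R) ≤ z2 then 1 else 0) := by
      intro z2 _
      unfold tmjO
      by_cases hD : tmjD c P R z1 z2
      · rw [if_pos hD]; positivity
      · rw [if_neg hD]
        have hD' : z1 < R ∨ (z2:ℝ) ≤ (z1:ℝ) + 1 + 2 * R + c * P ∨ (P:ℝ) - (c * P + 1 + R) ≤ z2 := by
          by_contra h
          push Not at h
          apply hD
          refine ⟨h.1, by linarith [h.2.1], by linarith [h.2.2]⟩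
        have q0 : (0:ℝ) ≤ (if z1 < R then (1:ℝ) else 0) := by positivity
        have q1 : (0:ℝ) ≤ (if (z2:ℝ) ≤ (z1:ℝ) + 1 + 2 * R + c * P then (1:ℝ) else 0) := by positivity
        have q2 : (0:ℝ) ≤ (if (P:ℝ) - (c * P + 1 + R) ≤ z2 then (1:ℝ) else 0) := by positivity
        rcases hD' with h | h | h
        · rw [if_pos h]; linarith
        · rw [if_pos h]; linarith
        · rw [if_pos h]; linarith
    refine (sum_le_sum hpt).trans ?_
    rw [sum_add_distrib, sum_add_distrib]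
    have a1 : ∑ z2 ∈ range P, (if z1 < R then (1:ℝ) else 0) = if z1 < R then (P:ℝ) else 0 := by
      split_ifs <;> simp
    have a2 : ∑ z2 ∈ range P, (if (z2:ℝ) ≤ (z1:ℝ) + 1 + 2 * R + c * P then (1:ℝ) else 0) ≤ ((z1:ℝ) + 1 + 2 * R + c * P) + 1 := by
      rw [← sum_filter, sum_const, nsmul_eq_mul, mul_one]
      exact hcnt _ (by positivity)
    have a3 : ∑ z2 ∈ range P, (if (P:ℝ) - (c * P + 1 + R) ≤ z2 then (1:ℝ) else 0) ≤ (c * P + 1 + R) + 1 := by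
      rw [← sum_filter, sum_const, nsmul_eq_mul, mul_one]
      have := hcnt2 (c * P + 1 + R)
      rwa [max_eq_left (by positivity)] at this
    linarith
  refine (sum_le_sum hrow).trans ?_
  rw [sum_add_distrib, sum_add_distrib]
  have b1 : ∑ z1 ∈ range P, (if z1 < R then (P:ℝ) else 0) ≤ R * P := by
    rw [← sum_filter, sum_const, nsmul_eq_mul]
    have hs : (range P).filter (fun z1 => z1 < R) ⊆ range R := by
      intro z hz; rw [mem_filter] at hz; rw [mem_range]; exact hz.2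
    have := card_le_card hs
    rw [card_range] at this
    have h' : (((range P).filter (fun z1 => z1 < R)).card : ℝ) ≤ R := by exact_mod_cast this
    exact mul_le_mul_of_nonneg_right h' hP0.le
  have b2 : ∑ z1 ∈ range P, (((z1:ℝ) + 1 + 2 * R + c * P) + 1) ≤ (P:ℝ) ^ 2 / 2 + P * (2 + 2 * R + c * P) := by
    have hg : ∑ z1 ∈ range P, (z1:ℝ) ≤ (P:ℝ) ^ 2 / 2 := by
      have := Finset.sum_range_id_mul_two P
      have h2 : (∑ i ∈ range P, (i:ℝ)) * 2 = P * ((P:ℝ) - 1) := by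
        have h3 : (((∑ i ∈ range P, i) * 2 : ℕ) : ℝ) = ((P * (P - 1) : ℕ) : ℝ) := by rw [this]
        push_cast [Nat.cast_sub hP] at h3
        exact h3
      nlinarith
    have : ∑ z1 ∈ range P, (((z1:ℝ) + 1 + 2 * R + c * P) + 1) = (∑ z1 ∈ range P, (z1:ℝ)) + P * (2 + 2 * R + c * P) := by
      rw [show (fun z1 : ℕ => ((z1:ℝ) + 1 + 2 * R + c * P) + 1) = fun z1 : ℕ => (z1:ℝ) + (2 + 2 * R + c * P) by
        funext z; ring]
      rw [sum_add_distrib, sum_const, card_range, nsmul_eq_mul]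
    rw [this]
    linarith
  have b3 : ∑ z1 ∈ range P, ((c * P + 1 + R) + 1) = P * (c * P + 2 + R) := by
    rw [sum_const, card_range, nsmul_eq_mul]; ring
  rw [b3]
  nlinarith

theorem tmj : TMJStmt := by
  intro c del hc hc8 hdel
  obtain ⟨n0, hn0⟩ := exists_nat_gt (40 / del)
  set n := n0 + 2 with hn
  have hn2 : (2:ℝ) ≤ n := by rw [hn]; push_cast; linarith [(Nat.cast_nonneg n0 : (0:ℝ) ≤ n0)]
  have hnpos : (0:ℝ) < n := by linarith
  have hnd : 40 / del ≤ n := by rw [hn]; push_cast; linarith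
  have hnd' : 40 / (n:ℝ) ≤ del := by
    rw [div_le_iff₀ hnpos]
    rw [div_le_iff₀ hdel] at hnd
    linarith
  set P := n ^ 5 with hPd
  set R := n ^ 3 with hRd
  have hP : 1 ≤ P := Nat.one_le_pow _ _ (by omega)
  have hPr : (P:ℝ) = (n:ℝ) ^ 5 := by rw [hPd]; push_cast; rfl
  have hRr : (R:ℝ) = (n:ℝ) ^ 3 := by rw [hRd]; push_cast; rfl
  have hP0 : (0:ℝ) < P := by exact_mod_cast hP
  set e1 : ℝ := 2 * P / (2 * R + 1) ^ 2 with he1
  have he1' : e1 ≤ 1 / (2 * n) := by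
    rw [he1, div_le_div_iff₀ (by positivity) (by positivity), hPr, hRr]
    have h1 : 0 ≤ (n:ℝ) ^ 3 := by positivity
    nlinarith
  have he1n : e1 ≤ 1/4 := by
    refine he1'.trans ?_
    rw [div_le_div_iff₀ (by positivity) (by norm_num)]
    linarith
  have he10 : 0 ≤ e1 := by positivity
  have hc4 := c4_pos
  have hpos : 0 < 1 - e1 := by linarith
  set O := tmjO c P R with hO
  have hO0 : ∀ z1 z2, 0 ≤ O z1 z2 := by
    intro z1 z2; rw [hO]; unfold tmjO; split_ifs <;> norm_num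
  set r : ℝ := 1 / ((1 - e1) * c4) with hr
  have hr0 : 0 < r := by positivity
  refine ⟨P, fun m => (r : ℂ) * omh P O m.1 m.2, by omega, ?_, ?_⟩
  · intro x1 x2
    have htp : tp P (fun m => (r : ℂ) * omh P O m.1 m.2) x1 x2 = ((r * omT P O x1 x2 : ℝ) : ℂ) := by
      unfold tp bx
      rw [sum_product]
      push_cast
      rw [omT_eq hP, mul_sum]
      refine sum_congr rfl fun m1 _ => ?_
      rw [mul_sum]
      refine sum_congr rfl fun m2 _ => ?_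
      push_cast
      ring
    rw [htp]
    refine ⟨Complex.ofReal_im _, ?_, ?_⟩
    · rw [Complex.ofReal_re]
      have : 0 ≤ omT P O x1 x2 := by
        unfold omT
        refine mul_nonneg hc4.le (sum_nonneg fun z1 _ => sum_nonneg fun z2 _ => mul_nonneg (hO0 _ _) (mul_nonneg (fe_nonneg _ _) (fe_nonneg _ _)))
      positivity
    · intro hF
      rw [Complex.ofReal_re]
      have h1 := tmj_low (R := R) hP hc hF
      have h2 : 1 - e1 ≤ omT P O x1 x2 / c4 := by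
        unfold omT
        rw [mul_div_assoc, mul_comm, div_mul_cancel₀ _ hc4.ne']
        exact h1
      rw [le_div_iff₀ hc4] at h2
      calc (1:ℝ) = r * ((1 - e1) * c4) := by rw [hr]; field_simp
        _ ≤ r * omT P O x1 x2 := mul_le_mul_of_nonneg_left h2 hr0.le
  · have hval : (r : ℂ) * omh P O (0 : ℤ × ℤ).1 (0 : ℤ × ℤ).2 =
        ((1 / (1 - e1) * ((∑ z1 ∈ range P, ∑ z2 ∈ range P, O z1 z2) / (P:ℝ) ^ 2) : ℝ) : ℂ) := by
      have hc4' : (c4 : ℂ) ≠ 0 := by exact_mod_cast hc4.ne'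
      have hpos' : ((1 - e1 : ℝ) : ℂ) ≠ 0 := by exact_mod_cast hpos.ne'
      unfold omh omd
      simp only [Prod.fst_zero, Prod.snd_zero, Int.cast_zero, zero_mul, add_zero, zero_div, neg_zero, ex_zero, mul_one, abs_zero, sub_zero]
      rw [hr]
      push_cast at hpos' ⊢
      field_simp
    have hcard := tmj_card (P := P) (R := R) hP hc
    have hm : (∑ z1 ∈ range P, ∑ z2 ∈ range P, O z1 z2) / (P:ℝ) ^ 2 ≤ 1/2 + 2 * c + 10 / n := by
      rw [div_le_iff₀ (by positivity)]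
      have h3 : (4 * (R:ℝ) + 6) * P ≤ 10 / n * (P:ℝ) ^ 2 := by
        have h4 : (4 * (R:ℝ) + 6) ≤ 10 / n * P := by
          rw [hPr, hRr]
          have h5 : 10 / (n:ℝ) * (n:ℝ) ^ 5 = 10 * (n:ℝ) ^ 4 := by field_simp
          rw [h5]
          have h6 : (1:ℝ) ≤ (n:ℝ) ^ 3 := one_le_pow₀ (by linarith)
          have h7 : (n:ℝ) ^ 4 = n * (n:ℝ) ^ 3 := by ring
          rw [h7]
          nlinarith
        calc (4 * (R:ℝ) + 6) * P ≤ 10 / n * P * P := mul_le_mul_of_nonneg_right h4 hP0.le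
          _ = _ := by ring
      calc (∑ z1 ∈ range P, ∑ z2 ∈ range P, O z1 z2) ≤ (P:ℝ) ^ 2 / 2 + 2 * c * P ^ 2 + (4 * R + 6) * P := hcard
        _ ≤ (1/2 + 2 * c + 10 / n) * (P:ℝ) ^ 2 := by linarith
    have hm0 : 0 ≤ (∑ z1 ∈ range P, ∑ z2 ∈ range P, O z1 z2) / (P:ℝ) ^ 2 := by
      have : 0 ≤ ∑ z1 ∈ range P, ∑ z2 ∈ range P, O z1 z2 := sum_nonneg fun z1 _ => sum_nonneg fun z2 _ => hO0 _ _
      positivity
    have hinv : 1 / (1 - e1) ≤ 1 + 1 / n := by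
      rw [div_le_iff₀ hpos]
      have h8 : 1 / (2 * (n:ℝ)) = (1 / n) / 2 := by field_simp
      rw [h8] at he1'
      have h9 : (1:ℝ) / n ≤ 1/2 := by rw [div_le_div_iff₀ hnpos (by norm_num)]; linarith
      have h10 : 0 < (1:ℝ) / n := by positivity
      nlinarith
    have hn1 : 1 / (n:ℝ) ≤ 1/2 := by rw [div_le_div_iff₀ hnpos (by norm_num)]; linarith
    refine ⟨?_, ?_, ?_⟩
    · show ((r : ℂ) * omh P O (0 : ℤ × ℤ).1 (0 : ℤ × ℤ).2).im = 0
      rw [hval]; exact Complex.ofReal_im _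
    · show 0 ≤ ((r : ℂ) * omh P O (0 : ℤ × ℤ).1 (0 : ℤ × ℤ).2).re
      rw [hval, Complex.ofReal_re]; positivity
    · show ((r : ℂ) * omh P O (0 : ℤ × ℤ).1 (0 : ℤ × ℤ).2).re ≤ _
      rw [hval, Complex.ofReal_re]
      have hu : 0 < 1 / (n:ℝ) := by positivity
      have h40 : 40 / (n:ℝ) = 40 * (1 / n) := by ring
      have h10' : 10 / (n:ℝ) = 10 * (1 / n) := by ring
      rw [h40] at hnd'
      rw [h10'] at hm
      set u := 1 / (n:ℝ)
      calc 1 / (1 - e1) * ((∑ z1 ∈ range P, ∑ z2 ∈ range P, O z1 z2) / (P:ℝ) ^ 2)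
          ≤ (1 + u) * (1/2 + 2 * c + 10 * u) := by
            apply mul_le_mul hinv hm hm0 (by positivity)
        _ ≤ 1/2 + 4 * c + del := by nlinarith

end Pool.FD
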