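import Pool.Agent.H13.K2.Weyl
import Pool.Agent.H24.FD.Defs

/-! MP_1f2761, k = 2: averaging over the windows (section 5): Markov's inequality and Weyl, for finitely many
patterns. -/

set_option autoImplicit false

namespace Pool.FD.AV
open Finset Pool.Agent.H24.FD

/-- windows with a large value of a fixed functional are rare -/
theorem mw1 {q : ℕ} (hq : q = 3 ∨ q = 5) {W : ℕ} (hW : 0 < W) {F : ℝ → ℝ} (hF : Continuous F)
    (h0 : ∀ y, 0 ≤ F y) {M B del : ℝ} (hM : ∫ y in (0 : ℝ)..1, F y ≤ M) (hB : 0 < B) (hd : 10 * M < del * B) :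
    ∃ K₀ : ℕ, ∀ K ≥ K₀, ∀ J : ℕ,
      ((((range K).filter fun i => B < F (yy q (J + i * W))).card : ℕ) : ℝ) ≤ del * K := by
  obtain ⟨K₀, hK⟩ := Pool.K2H13.weyl q hq W hW F hF.continuousOn (fun y _ => h0 y) (del * B - 10 * M)
    (by linarith)
  refine ⟨K₀, fun K hK' J => ?_⟩
  have h1 := hK K hK' J
  have h2 : ((((range K).filter fun i => B < F (yy q (J + i * W))).card : ℕ) : ℝ) * B ≤
      ∑ i ∈ range K, F (yy q (J + i * W)) := by
    calc ((((range K).filter fun i => B < F (yy q (J + i * W))).card : ℕ) : ℝ) * B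
        = ∑ i ∈ (range K).filter (fun i => B < F (yy q (J + i * W))), B := by
          rw [sum_const, nsmul_eq_mul]
      _ ≤ ∑ i ∈ (range K).filter (fun i => B < F (yy q (J + i * W))), F (yy q (J + i * W)) :=
          sum_le_sum fun i hi => (mem_filter.1 hi).2.le
      _ ≤ _ := sum_le_sum_of_subset_of_nonneg (filter_subset _ _) fun i _ _ => h0 _
  have h3 : (K : ℝ) * (10 * (∫ y in (0 : ℝ)..1, F y) + (del * B - 10 * M)) ≤ K * (del * B) := by
    apply mul_le_mul_of_nonneg_left _ (Nat.cast_nonneg K)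
    linarith
  have h4 : ((((range K).filter fun i => B < F (yy q (J + i * W))).card : ℕ) : ℝ) * B ≤ (del * K) * B := by
    calc _ ≤ _ := h2.trans (h1.trans h3)
      _ = (del * K) * B := by ring
  exact le_of_mul_le_mul_right h4 hB

/-- the same for a family of functionals which depends on the position through a finite pattern -/
theorem mwp {q : ℕ} (hq : q = 3 ∨ q = 5) {W : ℕ} (hW : 0 < W) {ι : Type*} [DecidableEq ι] (S : Finset ι)
    (pat : ℕ → ι) (J₀ : ℕ) (hS : ∀ J ≥ J₀, pat J ∈ S) (F : ℕ → ℝ → ℝ)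
    (hpat : ∀ J ≥ J₀, ∀ J' ≥ J₀, pat J = pat J' → F J = F J')
    (hF : ∀ J ≥ J₀, Continuous (F J)) (h0 : ∀ J ≥ J₀, ∀ y, 0 ≤ F J y) {M B del : ℝ}
    (hM : ∀ J ≥ J₀, ∫ y in (0 : ℝ)..1, F J y ≤ M) (hB : 0 < B) (hdel : 0 < del)
    (hd : 10 * M * S.card < del * B) :
    ∃ K₀ : ℕ, ∀ K ≥ K₀, ∀ J ≥ J₀,
      ((((range K).filter fun i => B < F (J + i * W) (yy q (J + i * W))).card : ℕ) : ℝ) ≤ del * K := by
  classical
  have key : ∀ s : ι, ∃ K₀ : ℕ, ∀ K ≥ K₀, ∀ J ≥ J₀,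
      ((((range K).filter fun i => pat (J + i * W) = s ∧ B < F (J + i * W) (yy q (J + i * W))).card : ℕ) : ℝ) ≤
        del / S.card * K := by
    intro s
    by_cases hs : ∃ J₁ ≥ J₀, pat J₁ = s
    · obtain ⟨J₁, hJ₁, rfl⟩ := hs
      have hc : 0 < (S.card : ℝ) := by
        exact_mod_cast card_pos.2 ⟨_, hS J₁ hJ₁⟩
      obtain ⟨K₀, hK⟩ := mw1 hq hW (hF J₁ hJ₁) (h0 J₁ hJ₁) (hM J₁ hJ₁) hB (del := del / S.card) (by
        rw [div_mul_eq_mul_div, lt_div_iff₀ hc]
        exact hd)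
      refine ⟨K₀, fun K hK' J hJ => ?_⟩
      refine le_trans ?_ (hK K hK' J)
      have : ((range K).filter fun i => pat (J + i * W) = pat J₁ ∧ B < F (J + i * W) (yy q (J + i * W))) ⊆
          (range K).filter fun i => B < F J₁ (yy q (J + i * W)) := by
        intro i hi
        rw [mem_filter] at hi ⊢
        obtain ⟨h1, h2, h3⟩ := hi
        refine ⟨h1, ?_⟩
        rwa [hpat (J + i * W) (by omega) J₁ hJ₁ h2] at h3
      exact_mod_cast card_le_card this
    · refine ⟨0, fun K _ J hJ => ?_⟩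
      have : ((range K).filter fun i => pat (J + i * W) = s ∧ B < F (J + i * W) (yy q (J + i * W))) = ∅ := by
        rw [filter_eq_empty_iff]
        intro i _ h
        exact hs ⟨J + i * W, by omega, h.1⟩
      rw [this, card_empty, Nat.cast_zero]
      positivity
  choose K₀ hK using key
  refine ⟨S.sup K₀, fun K hK' J hJ => ?_⟩
  have hsub : ((range K).filter fun i => B < F (J + i * W) (yy q (J + i * W))) ⊆
      S.biUnion fun s => (range K).filter fun i => pat (J + i * W) = s ∧ B < F (J + i * W) (yy q (J + i * W)) := by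
    intro i hi
    rw [mem_filter] at hi
    rw [mem_biUnion]
    exact ⟨pat (J + i * W), hS _ (by omega), mem_filter.2 ⟨hi.1, rfl, hi.2⟩⟩
  have h1 : ((((range K).filter fun i => B < F (J + i * W) (yy q (J + i * W))).card : ℕ) : ℝ) ≤
      ∑ s ∈ S, ((((range K).filter fun i => pat (J + i * W) = s ∧
        B < F (J + i * W) (yy q (J + i * W))).card : ℕ) : ℝ) := by
    exact_mod_cast (card_le_card hsub).trans card_biUnion_le
  refine h1.trans ?_
  have h2 : ∀ s ∈ S, ((((range K).filter fun i => pat (J + i * W) = s ∧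
        B < F (J + i * W) (yy q (J + i * W))).card : ℕ) : ℝ) ≤ del / S.card * K := by
    intro s hs
    exact hK s K ((le_sup hs).trans hK') J hJ
  refine (sum_le_sum h2).trans ?_
  rw [sum_const, nsmul_eq_mul]
  have hc : 0 < (S.card : ℝ) := by
    exact_mod_cast card_pos.2 ⟨_, hS J hJ⟩
  apply le_of_eq
  field_simp

/-- number of `n < K` with the property `P` -/
noncomputable def cnt (K : ℕ) (P : ℕ → Prop) : ℝ := ((@filter ℕ P (Classical.decPred P) (range K)).card : ℕ)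

theorem cnt_eq {K : ℕ} {P : ℕ → Prop} {iP : DecidablePred P} :
    ((((range K).filter P).card : ℕ) : ℝ) = cnt K P := by
  have : iP = Classical.decPred P := Subsingleton.elim _ _
  subst this
  rfl

theorem cnt_mono {K : ℕ} {P Q : ℕ → Prop} (h : ∀ n, P n → Q n) : cnt K P ≤ cnt K Q := by
  classical
  rw [← cnt_eq, ← cnt_eq]
  have : (range K).filter P ⊆ (range K).filter Q := by
    intro n hn
    rw [mem_filter] at hn ⊢
    exact ⟨hn.1, h n hn.2⟩
  exact Nat.cast_le.2 (card_le_card this)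

/-- union bound over finitely many properties -/
theorem un {ι : Type*} (S : Finset ι) (P : ι → ℕ → ℕ → Prop) (del : ℝ)
    (h : ∀ s ∈ S, ∃ K₀ : ℕ, ∀ K ≥ K₀, ∀ J : ℕ, cnt K (P s J) ≤ del * K) :
    ∃ K₀ : ℕ, ∀ K ≥ K₀, ∀ J : ℕ, cnt K (fun n => ∃ s ∈ S, P s J n) ≤ S.card * del * K := by
  classical
  choose! K₀ hK using h
  refine ⟨S.sup K₀, fun K hK' J => ?_⟩
  have h1 : cnt K (fun n => ∃ s ∈ S, P s J n) ≤ ∑ s ∈ S, cnt K (P s J) := by
    have hsub : (range K).filter (fun n => ∃ s ∈ S, P s J n) ⊆ S.biUnion fun s => (range K).filter (P s J) := by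
      intro i hi
      rw [mem_filter] at hi
      obtain ⟨h1, s, hs, h2⟩ := hi
      rw [mem_biUnion]
      exact ⟨s, hs, mem_filter.2 ⟨h1, h2⟩⟩
    rw [← cnt_eq]
    calc ((((range K).filter fun n => ∃ s ∈ S, P s J n).card : ℕ) : ℝ)
        ≤ ((∑ s ∈ S, ((range K).filter (P s J)).card : ℕ) : ℝ) :=
          Nat.cast_le.2 ((card_le_card hsub).trans card_biUnion_le)
      _ = ∑ s ∈ S, cnt K (P s J) := by
          rw [Nat.cast_sum]
          exact sum_congr rfl fun s _ => cnt_eq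
  refine h1.trans ((sum_le_sum fun s hs => hK s hs K ((le_sup hs).trans hK') J).trans ?_)
  rw [sum_const, nsmul_eq_mul]
  apply le_of_eq
  ring

theorem un2 (P Q : ℕ → ℕ → Prop) (d1 d2 : ℝ) (h1 : ∃ K₀ : ℕ, ∀ K ≥ K₀, ∀ J : ℕ, cnt K (P J) ≤ d1 * K)
    (h2 : ∃ K₀ : ℕ, ∀ K ≥ K₀, ∀ J : ℕ, cnt K (Q J) ≤ d2 * K) :
    ∃ K₀ : ℕ, ∀ K ≥ K₀, ∀ J : ℕ, cnt K (fun n => P J n ∨ Q J n) ≤ (d1 + d2) * K := by
  classical
  obtain ⟨K₁, h1⟩ := h1
  obtain ⟨K₂, h2⟩ := h2
  refine ⟨max K₁ K₂, fun K hK J => ?_⟩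
  have a1 := h1 K ((le_max_left _ _).trans hK) J
  have a2 := h2 K ((le_max_right _ _).trans hK) J
  have a3 : cnt K (fun n => P J n ∨ Q J n) ≤ cnt K (P J) + cnt K (Q J) := by
    rw [← cnt_eq, ← cnt_eq, ← cnt_eq]
    have hsub : (range K).filter (fun n => P J n ∨ Q J n) ⊆ (range K).filter (P J) ∪ (range K).filter (Q J) := by
      intro i hi
      rw [mem_filter] at hi
      rw [mem_union, mem_filter, mem_filter]
      rcases hi.2 with h | h
      · exact Or.inl ⟨hi.1, h⟩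
      · exact Or.inr ⟨hi.1, h⟩
    have := (card_le_card hsub).trans (card_union_le _ _)
    calc _ ≤ (((((range K).filter (P J)).card + ((range K).filter (Q J)).card : ℕ)) : ℝ) := Nat.cast_le.2 this
      _ = _ := by rw [Nat.cast_add]
  calc _ ≤ _ := a3
    _ ≤ d1 * K + d2 * K := add_le_add a1 a2
    _ = _ := by ring

/-- `mwp` in the form used for windows: `F` is indexed by the low point, `a` = distance of the low point of
the first window -/
theorem mwc {q : ℕ} (hq : q = 3 ∨ q = 5) {W : ℕ} (hW : 0 < W) {ι : Type*} [DecidableEq ι] (S : Finset ι)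
    (pat : ℕ → ι) (J₀ : ℕ) (hS : ∀ J ≥ J₀, pat J ∈ S) (F : ℕ → ℝ → ℝ)
    (hpat : ∀ J ≥ J₀, ∀ J' ≥ J₀, pat J = pat J' → F J = F J')
    (hF : ∀ J ≥ J₀, Continuous (F J)) (h0 : ∀ J ≥ J₀, ∀ y, 0 ≤ F J y) {M B del : ℝ}
    (hM : ∀ J ≥ J₀, ∫ y in (0 : ℝ)..1, F J y ≤ M) (hB : 0 < B) (hdel : 0 < del)
    (hd : 10 * M * S.card < del * B) (low : ℕ → ℕ → ℕ) (a : ℕ) (ha : J₀ ≤ a) (hlow : ∀ J n, low J n = J + a + n * W)
    (P : ℕ → ℕ → Prop) (hP : ∀ J n, P J n → B < F (low J n) (yy q (low J n))) :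
    ∃ K₀ : ℕ, ∀ K ≥ K₀, ∀ J : ℕ, cnt K (P J) ≤ del * K := by
  obtain ⟨K₀, hK⟩ := mwp hq hW S pat J₀ hS F hpat hF h0 hM hB hdel hd
  refine ⟨K₀, fun K hK' J => ?_⟩
  have h1 := hK K hK' (J + a) (by omega)
  rw [cnt_eq] at h1
  refine (cnt_mono fun n hn => ?_).trans h1
  have := hP J n hn
  rwa [hlow] at this

end Pool.FD.AV
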