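import Pool.Agent.H24.FD.P4
import Pool.Agent.H38.FD.RG2
import Pool.Agent.H38.FD.RGP
import Pool.Agent.H42.FD.KEF
import Pool.Agent.H42.FD.KER
import Pool.Agent.H78.FD.GLZ

/-! MP_1f2761, k = 2: regularity of the densities `OMp`, `OMc` and their dependence on the position. -/

set_option autoImplicit false

namespace Pool.FD.AV
open Finset Pool.K2 Pool.FD Pool.Agent.H24.FD

/-- one-dimensional shift upwards -/
theorem shp {Q R : ℕ} (hR : 0 < R) (h : ℕ → ℝ) (h0 : ∀ z, 0 ≤ h z) {a : ℕ} (ha : a < Q)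
    {d : ℕ} (hd : d < 2) :
    ∑ z ∈ range R, h ((a * R + z + d) % (Q * R)) ≤
      ∑ y ∈ range R, h (a * R + y) + ∑ y ∈ range R, h (((a + 1) % Q) * R + y) := by
  have hlt : ∀ z < R, a * R + z < Q * R := by
    intro z hz
    calc a * R + z < a * R + R := by omega
      _ = (a + 1) * R := by ring
      _ ≤ Q * R := Nat.mul_le_mul_right _ ha
  have hd' : d = 0 ∨ d = 1 := by omega
  rcases hd' with rfl | rfl
  · have h1 : ∀ z ∈ range R, h ((a * R + z + 0) % (Q * R)) = h (a * R + z) := by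
      intro z hz
      rw [Nat.add_zero, Nat.mod_eq_of_lt (hlt z (mem_range.1 hz))]
    rw [sum_congr rfl h1]
    have h2 : 0 ≤ ∑ y ∈ range R, h (((a + 1) % Q) * R + y) := sum_nonneg fun _ _ => h0 _
    linarith
  · obtain ⟨R', rfl⟩ : ∃ R', R = R' + 1 := ⟨R - 1, by omega⟩
    rw [sum_range_succ (fun z => h ((a * (R' + 1) + z + 1) % (Q * (R' + 1))))]
    have h1 : ∀ z ∈ range R', h ((a * (R' + 1) + z + 1) % (Q * (R' + 1))) =
        h (a * (R' + 1) + (z + 1)) := by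
      intro z hz
      have hz' := mem_range.1 hz
      rw [add_assoc, Nat.mod_eq_of_lt (hlt (z + 1) (by omega))]
    rw [sum_congr rfl h1]
    have h2 : (a * (R' + 1) + R' + 1) % (Q * (R' + 1)) = ((a + 1) % Q) * (R' + 1) + 0 := by
      have e : a * (R' + 1) + R' + 1 = (a + 1) * (R' + 1) := by ring
      rw [e, Nat.mul_mod_mul_right]
      exact (Nat.add_zero _).symm
    rw [h2]
    have h3 : ∑ z ∈ range R', h (a * (R' + 1) + (z + 1)) ≤ ∑ y ∈ range (R' + 1), h (a * (R' + 1) + y) := by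
      rw [sum_range_succ' (fun y => h (a * (R' + 1) + y))]
      have := h0 (a * (R' + 1) + 0)
      linarith
    have h4 : h (((a + 1) % Q) * (R' + 1) + 0) ≤
        ∑ y ∈ range (R' + 1), h (((a + 1) % Q) * (R' + 1) + y) :=
      single_le_sum (f := fun y => h (((a + 1) % Q) * (R' + 1) + y)) (fun _ _ => h0 _) (mem_range.2 (by omega))
    exact add_le_add h3 h4

/-- `1 + 2 omega^+`, with plus signs -/
noncomputable def oplp (T : ℕ) (om : ℕ → ℕ → ℝ) (z1 z2 : ℕ) : ℝ :=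
  1 + 2 * ∑ d1 ∈ range 2, ∑ d2 ∈ range 2, om ((z1 + d1) % T) ((z2 + d2) % T)

theorem rgp_plus (q t : ℕ) (kap C : ℝ) (om : ℕ → ℕ → ℝ) (hq : 2 ≤ q) (hk : 0 ≤ kap)
    (h0 : ∀ a b, 0 ≤ om a b) (hreg : Reg q t kap C om) : Reg q t kap (1 + 32 * C) (oplp (q ^ t) om) := by
  intro i hi a ha b hb
  have hq0 : 0 < q := by omega
  have hQ : 0 < q ^ i := pow_pos hq0 _
  have hR : 0 < q ^ (t - i) := pow_pos hq0 _
  have hT : q ^ t = q ^ i * q ^ (t - i) := by rw [← pow_add]; congr 1; omega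
  set Q := q ^ i with hQd
  set R := q ^ (t - i) with hRd
  have hQr : (1:ℝ) ≤ ((q:ℝ) ^ i) ^ kap := by
    apply Real.one_le_rpow _ hk
    exact one_le_pow₀ (by exact_mod_cast (by omega : 1 ≤ q))
  have hB : ∀ a' < Q, ∀ b' < Q, ∑ z₁ ∈ range R, ∑ z₂ ∈ range R, om (a' * R + z₁) (b' * R + z₂) ≤
      C * ((q:ℝ) ^ i) ^ kap * ((q:ℝ) ^ (t - i)) ^ 2 := fun a' ha' b' hb' => hreg i hi a' ha' b' hb'
  set W := C * ((q:ℝ) ^ i) ^ kap * ((q:ℝ) ^ (t - i)) ^ 2 with hW
  have ha1 : (a + 1) % Q < Q := Nat.mod_lt _ hQ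
  have hb1 : (b + 1) % Q < Q := Nat.mod_lt _ hQ
  have key : ∀ d1 ∈ range 2, ∀ d2 ∈ range 2, ∑ z₁ ∈ range R, ∑ z₂ ∈ range R,
      om ((a * R + z₁ + d1) % q ^ t) ((b * R + z₂ + d2) % q ^ t) ≤ 4 * W := by
    intro d1 hd1 d2 hd2
    rw [hT]
    have s1 : ∀ z₁ ∈ range R, ∑ z₂ ∈ range R,
        om ((a * R + z₁ + d1) % (Q * R)) ((b * R + z₂ + d2) % (Q * R)) ≤
        ∑ y ∈ range R, om ((a * R + z₁ + d1) % (Q * R)) (b * R + y) +
        ∑ y ∈ range R, om ((a * R + z₁ + d1) % (Q * R)) (((b + 1) % Q) * R + y) := by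
      intro z₁ _
      exact shp hR (fun z => om ((a * R + z₁ + d1) % (Q * R)) z) (fun z => h0 _ _) hb
        (mem_range.1 hd2)
    refine (sum_le_sum s1).trans ?_
    rw [sum_add_distrib, sum_comm, sum_comm (s := range R) (t := range R)
      (f := fun z₁ y => om ((a * R + z₁ + d1) % (Q * R)) (((b + 1) % Q) * R + y))]
    have s2 : ∀ b' < Q, ∑ y ∈ range R, ∑ z₁ ∈ range R,
        om ((a * R + z₁ + d1) % (Q * R)) (b' * R + y) ≤ 2 * W := by
      intro b' hb'
      have s3 : ∀ y ∈ range R, ∑ z₁ ∈ range R,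
          om ((a * R + z₁ + d1) % (Q * R)) (b' * R + y) ≤
          ∑ z₁ ∈ range R, om (a * R + z₁) (b' * R + y) +
          ∑ z₁ ∈ range R, om (((a + 1) % Q) * R + z₁) (b' * R + y) := by
        intro y _
        exact shp hR (fun z => om z (b' * R + y)) (fun z => h0 _ _) ha (mem_range.1 hd1)
      refine (sum_le_sum s3).trans ?_
      rw [sum_add_distrib, sum_comm, sum_comm (s := range R) (t := range R)
        (f := fun y z₁ => om (((a + 1) % Q) * R + z₁) (b' * R + y))]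
      have e1 := hB a ha b' hb'
      have e2 := hB _ ha1 b' hb'
      linarith
    have e1 := s2 b hb
    have e2 := s2 _ hb1
    linarith
  have expand : ∑ z₁ ∈ range R, ∑ z₂ ∈ range R, oplp (q ^ t) om (a * R + z₁) (b * R + z₂) =
      (R:ℝ) * R + 2 * ∑ d1 ∈ range 2, ∑ d2 ∈ range 2, ∑ z₁ ∈ range R, ∑ z₂ ∈ range R,
        om ((a * R + z₁ + d1) % q ^ t) ((b * R + z₂ + d2) % q ^ t) := by
    unfold oplp
    simp only [sum_add_distrib, sum_const, card_range, nsmul_eq_mul, mul_one, ← mul_sum]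
    congr 2
    simp only [sum_range_succ, sum_range_zero, zero_add, sum_add_distrib]
  rw [expand]
  have hsum : ∑ d1 ∈ range 2, ∑ d2 ∈ range 2, ∑ z₁ ∈ range R, ∑ z₂ ∈ range R,
        om ((a * R + z₁ + d1) % q ^ t) ((b * R + z₂ + d2) % q ^ t) ≤ 16 * W := by
    refine (sum_le_sum fun d1 hd1 => sum_le_sum fun d2 hd2 => key d1 hd1 d2 hd2).trans ?_
    simp only [sum_const, card_range, nsmul_eq_mul]
    push_cast
    linarith
  have hRR : (R:ℝ) * R ≤ 1 * ((q:ℝ) ^ i) ^ kap * ((q:ℝ) ^ (t - i)) ^ 2 := by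
    have e : (R:ℝ) = (q:ℝ) ^ (t - i) := by rw [hRd]; push_cast; rfl
    rw [e, one_mul]
    have : 0 ≤ ((q:ℝ) ^ (t - i)) ^ 2 := by positivity
    nlinarith
  calc (R:ℝ) * R + 2 * _ ≤ 1 * ((q:ℝ) ^ i) ^ kap * ((q:ℝ) ^ (t - i)) ^ 2 + 2 * (16 * W) := by
        linarith
    _ = (1 + 32 * C) * ((q:ℝ) ^ i) ^ kap * ((q:ℝ) ^ (t - i)) ^ 2 := by rw [hW]; ring

theorem qpr {q : ℕ} (kap : ℝ) (i m : ℕ) : (q : ℝ) ^ (kap * (i + m)) ≤ (q : ℝ) ^ (kap * m) * ((q : ℝ) ^ i) ^ kap := by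
  rcases Nat.eq_zero_or_pos q with h | h
  · subst h
    rcases eq_or_ne (kap * (i + m)) 0 with h1 | h1
    · rcases eq_or_ne kap 0 with h2 | h2
      · subst h2; simp
      · have h3 : (i:ℝ) + m = 0 := by
          rcases mul_eq_zero.1 h1 with h | h
          · exact absurd h h2
          · exact h
        have h4 : i = 0 := by
          have : i + m = 0 := by exact_mod_cast h3
          omega
        have h5 : m = 0 := by
          have : i + m = 0 := by exact_mod_cast h3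
          omega
        subst h4; subst h5; simp
    · rw [show ((0:ℕ):ℝ) = 0 by simp, Real.zero_rpow h1]
      positivity
  · have hq : (0:ℝ) < q := by exact_mod_cast h
    rw [← Real.rpow_natCast (q:ℝ) i, ← Real.rpow_mul hq.le, ← Real.rpow_add hq]
    apply le_of_eq
    congr 1
    ring

/-- regularity of the first part of the kernel -/
theorem reg_omF {q m g t₁ t tu : ℕ} {kap : ℝ} {wm : ℕ → ℕ → ℝ} (hq : 2 ≤ q) (hm : 1 ≤ m) (hg : 1 ≤ g)
    (ht : t₁ + g ≤ t) (htu : tu ≤ t) (hk : 0 ≤ kap) (hw : MK q m kap wm) :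
    Reg q tu kap ((q : ℝ) ^ (kap * m)) (fun a b => omF q m g t₁ wm t tu (a, b)) := by
  obtain ⟨-, -, h3, -, -, -⟩ := kef q m g t₁ t tu kap wm hq hm hg ht htu hk hw
  intro i hi a ha b hb
  refine (sum_le_sum fun z₁ _ => h3 (a * q ^ (tu - i) + z₁) i hi b hb).trans ?_
  rw [sum_const, card_range, nsmul_eq_mul]
  push_cast
  have h := qpr (q := q) kap i m
  have h' : 0 ≤ (q:ℝ) ^ (tu - i) * (q:ℝ) ^ (tu - i) := by positivity
  nlinarith [mul_le_mul_of_nonneg_right h h']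

/-- regularity of the kernel -/
theorem reg_omK {q m g t₁ t : ℕ} {kap : ℝ} {wm : ℕ → ℕ → ℝ} (hq : 2 ≤ q) (hm : 1 ≤ m) (hg : 1 ≤ g)
    (ht : t₁ + g ≤ t) (hk : 0 ≤ kap) (hw : MK q m kap wm) :
    Reg q t kap (2 * (q : ℝ) ^ (kap * m)) (fun a b => omK q m g t₁ wm t (a, b)) := by
  obtain ⟨-, -, -, h3, -, -⟩ := ker q m g t₁ t kap wm hq hm hg ht hk hw
  intro i hi a ha b hb
  refine (sum_le_sum fun z₁ _ => h3 (a * q ^ (t - i) + z₁) i hi b hb).trans ?_
  rw [sum_const, card_range, nsmul_eq_mul]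
  push_cast
  have h := qpr (q := q) kap i m
  have h' : 0 ≤ (q:ℝ) ^ (t - i) * (q:ℝ) ^ (t - i) := by positivity
  nlinarith [mul_le_mul_of_nonneg_right h h']

theorem tt_mono {q u k J : ℕ} (h : u ≤ k) : tt q u J ≤ tt q k J := by
  unfold tt
  have := GLZ78.II_mono q (show J - k ≤ J - u by omega)
  omega

theorem kk_nonneg : (0 : ℝ) ≤ kk := by unfold kk; norm_num

/-- regularity of the density of a partial block -/
theorem reg_OMp {q m g t₁ l k J u : ℕ} {wm : ℕ → ℕ → ℝ} (hq : 2 ≤ q) (hm : 1 ≤ m) (hg : 1 ≤ g)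
    (hu : u ≤ k) (ht : t₁ + g ≤ tt q (l * k) J) (hw : MK q m kk wm) :
    Reg q (tt q (l * u) J) kk (1 + 32 * (q : ℝ) ^ (kk * m)) (OMp q m g t₁ l k wm J u) := by
  have h1 : tt q (l * u) J ≤ tt q (l * k) J := tt_mono (Nat.mul_le_mul_left _ hu)
  have h2 := reg_omF hq hm hg ht h1 kk_nonneg hw
  obtain ⟨h0, -⟩ := kef q m g t₁ (tt q (l * k) J) (tt q (l * u) J) kk wm hq hm hg ht h1 kk_nonneg hw
  have h3 := rgp_plus q (tt q (l * u) J) kk _ _ hq kk_nonneg (fun a b => h0 (a, b)) h2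
  exact h3

theorem OMp_nonneg {q m g t₁ l k J u : ℕ} {wm : ℕ → ℕ → ℝ} (hq : 2 ≤ q) (hm : 1 ≤ m) (hg : 1 ≤ g)
    (hu : u ≤ k) (ht : t₁ + g ≤ tt q (l * k) J) (hw : MK q m kk wm) (z₁ z₂ : ℕ) :
    0 ≤ OMp q m g t₁ l k wm J u z₁ z₂ := by
  have h1 : tt q (l * u) J ≤ tt q (l * k) J := tt_mono (Nat.mul_le_mul_left _ hu)
  obtain ⟨h0, -⟩ := kef q m g t₁ (tt q (l * k) J) (tt q (l * u) J) kk wm hq hm hg ht h1 kk_nonneg hw
  unfold OMp omFP
  exact add_nonneg zero_le_one (mul_nonneg (by norm_num) (sum_nonneg fun _ _ => sum_nonneg fun _ _ => h0 _))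

/-- additivity of the number of digits -/
theorem tt_succ {q w n J : ℕ} (h : w * (n + 1) ≤ J) : tt q (w * (n + 1)) J = tt q w J + tt q (w * n) (J - w) := by
  have e1 : w * (n + 1) = w * n + w := by ring
  have h1 := GLZ78.II_mono q (show J - w ≤ J by omega)
  have h2 := GLZ78.II_mono q (show J - w - w * n ≤ J - w by omega)
  unfold tt
  rw [e1]
  have e2 : J - (w * n + w) = J - w - w * n := by omega
  rw [e2]
  omega

theorem OMF_nonneg (q w : ℕ) (om : ℕ → ℕ × ℕ → ℝ) (h0 : ∀ J z, 0 ≤ om J z) :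
    ∀ (n J : ℕ) (z : ℕ × ℕ), 0 ≤ OMF q w om J n z := by
  intro n
  induction n with
  | zero => intro J z; simp [OMF]
  | succ n ih =>
    intro J z
    unfold OMF
    apply mul_nonneg _ (ih _ _)
    have : 0 ≤ omP q w om J (z.1 / q ^ tt q (w * n) (J - w), z.2 / q ^ tt q (w * n) (J - w)) :=
      sum_nonneg fun _ _ => sum_nonneg fun _ _ => h0 _ _
    linarith

/-- regularity of the flattened density -/
theorem reg_OMF (q w : ℕ) (hq : 2 ≤ q) (kap C S D : ℝ) (hk : 0 ≤ kap) (hC : 0 ≤ C) (hS : 0 ≤ S)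
    (hD1 : 1 + 32 * C ≤ D) (hD2 : 1 + 8 * S ≤ D) (om : ℕ → ℕ × ℕ → ℝ) (h0 : ∀ J z, 0 ≤ om J z) :
    ∀ (n J : ℕ), w * n ≤ J →
    (∀ j < n, Reg q (tt q w (J - w * j)) kap C (fun a b => om (J - w * j) (a, b)) ∧
      ∀ z, om (J - w * j) z ≤ S * ((q:ℝ) ^ tt q w (J - w * j)) ^ kap) →
    Reg q (tt q (w * n) J) kap (D ^ n) (fun a b => OMF q w om J n (a, b)) := by
  intro n
  have hq1 : (1:ℝ) ≤ q := by exact_mod_cast (by omega : 1 ≤ q)
  induction n with
  | zero =>
    intro J _ _ i hi a ha b hb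
    have e : tt q (w * 0) J = 0 := by unfold tt; simp
    rw [e] at hi ⊢
    have hi0 : i = 0 := by omega
    subst hi0
    simp [OMF]
  | succ n ih =>
    intro J hJ hreg
    have hD0 : 0 ≤ D := by linarith
    have hJ' : w * n ≤ J - w := by
      have e1 : w * (n + 1) = w * n + w := by ring
      omega
    have ih' := ih (J - w) hJ' (by
      intro j hj
      have e : J - w - w * j = J - w * (j + 1) := by
        have e1 : w * (j + 1) = w * j + w := by ring
        omega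
      rw [e]
      exact hreg (j + 1) (by omega))
    obtain ⟨h1, h2⟩ := hreg 0 (by omega)
    rw [Nat.mul_zero, Nat.sub_zero] at h1 h2
    rw [tt_succ hJ]
    set t := tt q w J with ht
    set u := tt q (w * n) (J - w) with hu
    have hf := rgp q t kap C (fun a b => om J (a, b)) hq hk hC (fun a b => h0 _ _) h1
    have hfs : ∀ a < q ^ t, ∀ b < q ^ t, opl (q ^ t) (fun a b => om J (a, b)) a b ≤ (1 + 8 * S) * ((q:ℝ) ^ t) ^ kap := by
      intro a _ b _
      unfold opl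
      have h3 : ∑ d1 ∈ range 2, ∑ d2 ∈ range 2, om J ((a + q ^ t - d1) % q ^ t, (b + q ^ t - d2) % q ^ t) ≤
          4 * (S * ((q:ℝ) ^ t) ^ kap) := by
        refine (sum_le_sum fun d1 _ => sum_le_sum fun d2 _ => h2 _).trans ?_
        simp only [sum_const, card_range, nsmul_eq_mul]
        push_cast
        apply le_of_eq
        ring
      have h4 : 1 ≤ ((q:ℝ) ^ t) ^ kap := Real.one_le_rpow (one_le_pow₀ hq1) hk
      linarith
    have hmean : ∑ a ∈ range (q ^ u), ∑ b ∈ range (q ^ u), OMF q w om (J - w) n (a, b) ≤ D ^ n * ((q:ℝ) ^ u) ^ 2 := by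
      have := ih' 0 (Nat.zero_le _) 0 (by simp) 0 (by simp)
      simpa using this
    have h5 := rg2 q t u kap (1 + 32 * C) (1 + 8 * S) (D ^ n) (D ^ n) _ _ hq hk
      (fun a b => by
        unfold opl
        have : 0 ≤ ∑ d1 ∈ range 2, ∑ d2 ∈ range 2, om J ((a + q ^ t - d1) % q ^ t, (b + q ^ t - d2) % q ^ t) :=
          sum_nonneg fun _ _ => sum_nonneg fun _ _ => h0 _ _
        linarith) (fun a b => OMF_nonneg q w om h0 n (J - w) (a, b)) hf hfs ih' hmean (by linarith) (by linarith)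
        (by positivity) (by positivity)
    have h6 : max ((1 + 32 * C) * D ^ n) ((1 + 8 * S) * D ^ n) ≤ D ^ (n + 1) := by
      rw [pow_succ, mul_comm (D ^ n) D]
      have : 0 ≤ D ^ n := by positivity
      exact max_le (mul_le_mul_of_nonneg_right hD1 this) (mul_le_mul_of_nonneg_right hD2 this)
    intro i hi a ha b hb
    refine (h5 i hi a ha b hb).trans ?_
    have : 0 ≤ ((q:ℝ) ^ i) ^ kap * ((q:ℝ) ^ (t + u - i)) ^ 2 := by positivity
    nlinarith [mul_le_mul_of_nonneg_right h6 this]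

/-- the flattened density depends only on the digit numbers -/
theorem OMF_congr (q w : ℕ) (om om' : ℕ → ℕ × ℕ → ℝ) : ∀ (n J J' : ℕ), w * n ≤ J → w * n ≤ J' →
    (∀ j < n, tt q w (J - w * j) = tt q w (J' - w * j)) →
    (∀ j < n, ∀ z, om (J - w * j) z = om' (J' - w * j) z) →
    tt q (w * n) J = tt q (w * n) J' ∧ ∀ z, OMF q w om J n z = OMF q w om' J' n z := by
  intro n
  induction n with
  | zero =>
    intro J J' _ _ _ _
    constructor
    · unfold tt; simp
    · intro z; simp [OMF]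
  | succ n ih =>
    intro J J' hJ hJ' h1 h2
    have e1 : w * (n + 1) = w * n + w := by ring
    obtain ⟨i1, i2⟩ := ih (J - w) (J' - w) (by omega) (by omega)
      (by
        intro j hj
        have e : w * (j + 1) = w * j + w := by ring
        have := h1 (j + 1) (by omega)
        rwa [e, ← Nat.sub_sub, Nat.sub_right_comm, ← Nat.sub_sub, Nat.sub_right_comm J'] at this)
      (by
        intro j hj z
        have e : w * (j + 1) = w * j + w := by ring
        have := h2 (j + 1) (by omega) z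
        rwa [e, ← Nat.sub_sub, Nat.sub_right_comm, ← Nat.sub_sub, Nat.sub_right_comm J'] at this)
    have h3 := h1 0 (by omega)
    rw [Nat.mul_zero, Nat.sub_zero, Nat.sub_zero] at h3
    have h4 : ∀ z, om J z = om' J' z := by
      intro z
      have := h2 0 (by omega) z
      rwa [Nat.mul_zero, Nat.sub_zero, Nat.sub_zero] at this
    constructor
    · rw [tt_succ hJ, tt_succ hJ', h3, i1]
    · intro z
      unfold OMF omP
      simp only [h3, i1, i2, h4]

end Pool.FD.AV
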