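import Pool.Agent.H84.FD.AVa
import Pool.Agent.H84.FD.AVb
import Pool.Agent.H13.FD.FK4
import Pool.Agent.H88.FD.RSH

/-! MP_1f2761, k = 2: means of the functionals of section 5. -/

set_option autoImplicit false

namespace Pool.FD.AV
open Finset Pool.K2 Pool.FD Pool.Agent.H24.FD MeasureTheory

theorem hh_val : hh = 799 / 1000 := rfl
theorem kk_val : kk = 2622 / 10000 := rfl

/-- mean of a shell -/
theorem mean_Fs {q t r l i : ℕ} {p : ℕ → ℕ → ℝ} {C0 Ch : ℝ} {Om : ℕ → ℕ → ℝ} (hq : 2 ≤ q) (hWt : Wt r p)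
    (hCh : 0 ≤ Ch) (hC0 : 0 ≤ C0)
    (hp : HP r p hh (Ch * 2 ^ l * (r + l + 4) * (2 : ℝ) ^ (-(hh * r))) 1)
    (ht : (q : ℝ) ^ t ≤ q * 2 ^ r) (h0 : ∀ a b, 0 ≤ Om a b) (hR : Reg q t kk C0 Om) (hi : 1 ≤ i) (hit : i ≤ t) :
    ∫ y in (0 : ℝ)..1, Fs q i r p (q ^ t) Om y ≤
      6400 * C0 ^ 2 * Ch * (q : ℝ) ^ 2 * (2 ^ l * (r + l + 4)) * (q : ℝ) ^ (-(5368 / 10000 * i : ℝ)) := by
  have hq0 : (0 : ℝ) < q := by exact_mod_cast (by omega : 0 < q)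
  have hq1 : (1 : ℝ) ≤ q := by exact_mod_cast (by omega : 1 ≤ q)
  have hh0 : (0:ℝ) ≤ hh := by unfold hh; norm_num
  have h1 := Pool.FD.fk5 r p hh _ 1 hWt hh0 (by positivity) le_rfl hp q t kk C0 Om hq kk_nonneg hC0 h0 hR i hi hit
  refine h1.trans ?_
  have hqi : (q : ℝ) ^ i = q * (q : ℝ) ^ (i - 1) := by
    rw [← pow_succ']; congr 1; omega
  have e1 : (q : ℝ) ^ t / (q : ℝ) ^ (i - 1) ≤ (q : ℝ) ^ 2 * 2 ^ r / (q : ℝ) ^ i := by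
    rw [hqi, div_le_div_iff₀ (by positivity) (by positivity)]
    nlinarith [mul_le_mul_of_nonneg_right ht (by positivity : (0:ℝ) ≤ q * (q : ℝ) ^ (i - 1))]
  have e2 : ((q : ℝ) ^ t / (q : ℝ) ^ (i - 1)) ^ hh ≤ ((q : ℝ) ^ 2 * 2 ^ r / (q : ℝ) ^ i) ^ hh :=
    Real.rpow_le_rpow (by positivity) e1 hh0
  have e3 : ((q : ℝ) ^ 2 * 2 ^ r / (q : ℝ) ^ i) ^ hh = ((q : ℝ) ^ 2) ^ hh * (2 ^ r) ^ hh / ((q : ℝ) ^ i) ^ hh := by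
    rw [Real.div_rpow (by positivity) (by positivity), Real.mul_rpow (by positivity) (by positivity)]
  have e4 : ((q : ℝ) ^ 2) ^ hh ≤ (q : ℝ) ^ 2 := by
    calc ((q : ℝ) ^ 2) ^ hh ≤ ((q : ℝ) ^ 2) ^ (1:ℝ) :=
          Real.rpow_le_rpow_of_exponent_le (one_le_pow₀ hq1) (by unfold hh; norm_num)
      _ = _ := Real.rpow_one _
  have e5 : ((2:ℝ) ^ r) ^ hh * (2:ℝ) ^ (-(hh * r)) = 1 := by
    rw [← Real.rpow_natCast 2 r, ← Real.rpow_mul (by norm_num), ← Real.rpow_add (by norm_num)]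
    rw [show (r:ℝ) * hh + -(hh * r) = 0 by ring, Real.rpow_zero]
  have e6 : ((q : ℝ) ^ i) ^ kk / ((q : ℝ) ^ i) ^ hh = (q : ℝ) ^ (-(5368 / 10000 * i : ℝ)) := by
    rw [← Real.rpow_natCast (q:ℝ) i, ← Real.rpow_mul hq0.le, ← Real.rpow_mul hq0.le, ← Real.rpow_sub hq0]
    congr 1
    unfold kk hh
    ring
  have hA : 0 ≤ 6400 * C0 ^ 2 * (Ch * 2 ^ l * (r + l + 4) * (2 : ℝ) ^ (-(hh * r))) := by positivity
  calc 6400 * C0 ^ 2 * (Ch * 2 ^ l * (r + l + 4) * (2 : ℝ) ^ (-(hh * r))) *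
        ((q : ℝ) ^ t / (q : ℝ) ^ (i - 1)) ^ hh * ((q : ℝ) ^ i) ^ kk
      ≤ 6400 * C0 ^ 2 * (Ch * 2 ^ l * (r + l + 4) * (2 : ℝ) ^ (-(hh * r))) *
        (((q : ℝ) ^ 2) ^ hh * (2 ^ r) ^ hh / ((q : ℝ) ^ i) ^ hh) * ((q : ℝ) ^ i) ^ kk := by
        rw [← e3]
        exact mul_le_mul_of_nonneg_right (mul_le_mul_of_nonneg_left e2 hA) (by positivity)
    _ = 6400 * C0 ^ 2 * Ch * ((q : ℝ) ^ 2) ^ hh * (2 ^ l * (r + l + 4)) *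
        (((2:ℝ) ^ r) ^ hh * (2:ℝ) ^ (-(hh * r))) * (((q : ℝ) ^ i) ^ kk / ((q : ℝ) ^ i) ^ hh) := by ring
    _ = 6400 * C0 ^ 2 * Ch * ((q : ℝ) ^ 2) ^ hh * (2 ^ l * (r + l + 4)) * (q : ℝ) ^ (-(5368 / 10000 * i : ℝ)) := by
        rw [e5, e6, mul_one]
    _ ≤ _ := by
        have h2 : 0 ≤ (2 ^ l * ((r:ℝ) + l + 4)) * (q : ℝ) ^ (-(5368 / 10000 * i : ℝ)) := by positivity
        have h3 : 6400 * C0 ^ 2 * Ch * ((q : ℝ) ^ 2) ^ hh ≤ 6400 * C0 ^ 2 * Ch * (q : ℝ) ^ 2 :=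
          mul_le_mul_of_nonneg_left e4 (by positivity)
        calc _ = (6400 * C0 ^ 2 * Ch * ((q : ℝ) ^ 2) ^ hh) * ((2 ^ l * ((r:ℝ) + l + 4)) * (q : ℝ) ^ (-(5368 / 10000 * i : ℝ))) := by ring
          _ ≤ (6400 * C0 ^ 2 * Ch * (q : ℝ) ^ 2) * ((2 ^ l * ((r:ℝ) + l + 4)) * (q : ℝ) ^ (-(5368 / 10000 * i : ℝ))) :=
              mul_le_mul_of_nonneg_right h3 h2
          _ = _ := by ring

/-- mean of a nonzero frequency -/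
theorem mean_Fk {q t r l Ks : ℕ} {p : ℕ → ℕ → ℝ} {C0 Ch : ℝ} {Om : ℕ → ℕ → ℝ} (hq : 2 ≤ q) (hWt : Wt r p)
    (hCh : 0 ≤ Ch) (hKs : 1 ≤ Ks)
    (hp : HP r p hh (Ch * 2 ^ l * (r + l + 4 + Real.logb 2 Ks) * (2 : ℝ) ^ (-(hh * r))) Ks)
    (ht : (q : ℝ) ^ t ≤ q * 2 ^ r) (h0 : ∀ a b, 0 ≤ Om a b) (hR : Reg q t kk C0 Om) :
    ∀ κ ∈ bx0 Ks, ∫ y in (0 : ℝ)..1, Fk r p (q ^ t) Om κ y ≤
      190 * C0 ^ 2 * Ch * q * (2 ^ l * (r + l + 4 + Real.logb 2 Ks)) * (2 : ℝ) ^ (-(5368 / 10000 * r : ℝ)) := by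
  intro κ hκ
  have hq0 : (0 : ℝ) < q := by exact_mod_cast (by omega : 0 < q)
  have hq1 : (1 : ℝ) ≤ q := by exact_mod_cast (by omega : 1 ≤ q)
  have hh0 : (0:ℝ) ≤ hh := by unfold hh; norm_num
  have hlog : 0 ≤ Real.logb 2 Ks := Real.logb_nonneg (by norm_num) (by exact_mod_cast hKs)
  have hκ1 : κ ≠ 0 := by
    unfold bx0 at hκ
    exact (mem_filter.1 hκ).2
  have hκ2 : nm κ + 1 ≤ Ks := by
    unfold bx0 at hκ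
    have h3 := (mem_filter.1 hκ).1
    unfold bx at h3
    rw [mem_product, mem_Ioo, mem_Ioo] at h3
    obtain ⟨⟨a1, a2⟩, a3, a4⟩ := h3
    have b1 : |κ.1| + 1 ≤ (Ks:ℤ) := by
      have : |κ.1| < (Ks:ℤ) := abs_lt.2 ⟨a1, a2⟩
      omega
    have b2 : |κ.2| + 1 ≤ (Ks:ℤ) := by
      have : |κ.2| < (Ks:ℤ) := abs_lt.2 ⟨a3, a4⟩
      omega
    have c1 : |(κ.1:ℝ)| + 1 ≤ Ks := by exact_mod_cast b1
    have c2 : |(κ.2:ℝ)| + 1 ≤ Ks := by exact_mod_cast b2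
    unfold nm
    have := max_le (show |(κ.1:ℝ)| ≤ Ks - 1 by linarith) (show |(κ.2:ℝ)| ≤ Ks - 1 by linarith)
    linarith
  have h1 := Pool.FD.fk4 r p hh _ Ks hWt hh0 (by unfold hh; norm_num) (by positivity) hp (q ^ t)
    (pow_pos (by omega) _) Om h0 κ hκ1 hκ2
  refine h1.trans ?_
  have hn := nrm_le (q := q) (t := t) (by omega) (fun z₁ _ z₂ _ => h0 z₁ z₂) hR
  have e1 : ((q:ℝ) ^ t) ^ kk ≤ q * (2:ℝ) ^ (kk * r) := by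
    calc ((q:ℝ) ^ t) ^ kk ≤ (q * 2 ^ r) ^ kk := Real.rpow_le_rpow (by positivity) ht kk_nonneg
      _ = (q:ℝ) ^ kk * (2 ^ r) ^ kk := Real.mul_rpow (by positivity) (by positivity)
      _ ≤ q * (2:ℝ) ^ (kk * r) := by
          have a1 : (q:ℝ) ^ kk ≤ q := by
            calc (q:ℝ) ^ kk ≤ (q:ℝ) ^ (1:ℝ) := Real.rpow_le_rpow_of_exponent_le hq1 (by unfold kk; norm_num)
              _ = q := Real.rpow_one _
          have a2 : ((2:ℝ) ^ r) ^ kk = (2:ℝ) ^ (kk * r) := by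
            rw [← Real.rpow_natCast 2 r, ← Real.rpow_mul (by norm_num), mul_comm]
          rw [a2]
          exact mul_le_mul_of_nonneg_right a1 (by positivity)
  have hC : 0 ≤ Ch * 2 ^ l * (r + l + 4 + Real.logb 2 Ks) * (2 : ℝ) ^ (-(hh * r)) := by positivity
  calc 190 * (Ch * 2 ^ l * (r + l + 4 + Real.logb 2 Ks) * (2 : ℝ) ^ (-(hh * r))) * nrm (q ^ t) Om
      ≤ 190 * (Ch * 2 ^ l * (r + l + 4 + Real.logb 2 Ks) * (2 : ℝ) ^ (-(hh * r))) *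
        (C0 ^ 2 * (q * (2:ℝ) ^ (kk * r))) := by
        apply mul_le_mul_of_nonneg_left _ (by positivity)
        exact hn.trans (mul_le_mul_of_nonneg_left e1 (sq_nonneg _))
    _ = 190 * C0 ^ 2 * Ch * q * (2 ^ l * (r + l + 4 + Real.logb 2 Ks)) *
        ((2 : ℝ) ^ (-(hh * r)) * (2:ℝ) ^ (kk * r)) := by ring
    _ = _ := by
        rw [← Real.rpow_add (by norm_num)]
        congr 2
        unfold hh kk
        ring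

theorem card_bx0 (K : ℕ) : ((bx0 K).card : ℝ) ≤ 4 * (K:ℝ) ^ 2 := by
  have h1 : (bx0 K).card ≤ (bx K).card := card_le_card (filter_subset _ _)
  have h2 : (bx K).card ≤ (2 * K) * (2 * K) := by
    unfold bx
    rw [card_product, Int.card_Ioo]
    have : ((K:ℤ) - -(K:ℤ) - 1).toNat ≤ 2 * K := by omega
    exact Nat.mul_le_mul this this
  have h3 : ((bx0 K).card : ℝ) ≤ ((2 * K) * (2 * K) : ℕ) := by exact_mod_cast h1.trans h2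
  refine h3.trans ?_
  push_cast
  nlinarith

theorem Fk_nonneg (r : ℕ) (p : ℕ → ℕ → ℝ) (P : ℕ) (Om : ℕ → ℕ → ℝ) (κ : ℤ × ℤ) (y : ℝ) : 0 ≤ Fk r p P Om κ y := by
  unfold Fk; positivity
theorem Fs_nonneg (q i r : ℕ) (p : ℕ → ℕ → ℝ) (P : ℕ) (Om : ℕ → ℕ → ℝ) (y : ℝ) : 0 ≤ Fs q i r p P Om y := by
  unfold Fs; positivity
theorem Dk_nonneg (r : ℕ) (p : ℕ → ℕ → ℝ) (K : ℕ) (y : ℝ) : 0 ≤ Dk r p K y := by
  unfold Dk; positivity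

/-- mean of the sum over the nonzero frequencies below `Ks = 4^v` -/
theorem mean_Hi {q t r l v : ℕ} {p : ℕ → ℕ → ℝ} {C0 Ch : ℝ} {Om : ℕ → ℕ → ℝ} (hq : 2 ≤ q) (hWt : Wt r p)
    (hCh : 0 ≤ Ch)
    (hp : HP r p hh (Ch * 2 ^ l * (r + l + 4 + Real.logb 2 ((4 ^ v : ℕ) : ℝ)) * (2 : ℝ) ^ (-(hh * r))) ((4 ^ v : ℕ) : ℝ))
    (ht : (q : ℝ) ^ t ≤ q * 2 ^ r) (h0 : ∀ a b, 0 ≤ Om a b) (hR : Reg q t kk C0 Om) :
    ∫ y in (0 : ℝ)..1, ∑ κ ∈ bx0 (4 ^ v), Fk r p (q ^ t) Om κ y ≤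
      760 * C0 ^ 2 * Ch * q * (2 ^ l * (r + l + 4 + 2 * v)) * (2 : ℝ) ^ (4 * v - 5368 / 10000 * r : ℝ) := by
  have hlog : Real.logb 2 ((4 ^ v : ℕ) : ℝ) = 2 * v := by
    push_cast
    rw [show (4:ℝ) = (2:ℝ) ^ (2:ℝ) by norm_num, ← Real.rpow_natCast, ← Real.rpow_mul (by norm_num), Real.logb_rpow (by norm_num) (by norm_num)]
  have h1 := mean_Fk hq hWt hCh (Nat.one_le_pow _ _ (by norm_num)) hp ht h0 hR
  rw [intervalIntegral.integral_finsetSum (fun κ _ =>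
    (((Pool.FD.fct r p (q ^ t) Om κ 0 0).1).intervalIntegrable 0 1))]
  refine (sum_le_sum h1).trans ?_
  rw [sum_const, nsmul_eq_mul, hlog]
  have h2 := card_bx0 (4 ^ v)
  have hX : 0 ≤ 190 * C0 ^ 2 * Ch * q * (2 ^ l * ((r:ℝ) + l + 4 + 2 * v)) * (2 : ℝ) ^ (-(5368 / 10000 * r : ℝ)) := by
    positivity
  refine (mul_le_mul_of_nonneg_right h2 hX).trans ?_
  have e : (((4 ^ v : ℕ) : ℝ)) ^ 2 = (2:ℝ) ^ (4 * v : ℝ) := by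
    have a1 : (((4 ^ v : ℕ) : ℝ)) ^ 2 = (2:ℝ) ^ (4 * v : ℕ) := by
      push_cast
      rw [← pow_mul, show (4:ℝ) = (2:ℝ) ^ 2 by norm_num, ← pow_mul]
      congr 1
      ring
    rw [a1, ← Real.rpow_natCast]
    congr 1
    push_cast
    ring
  have e2 : (2 : ℝ) ^ (4 * v - 5368 / 10000 * r : ℝ) = (2:ℝ) ^ (4 * v : ℝ) * (2 : ℝ) ^ (-(5368 / 10000 * r : ℝ)) := by
    rw [← Real.rpow_add (by norm_num)]
    congr 1
  rw [e, e2]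
  apply le_of_eq
  ring

end Pool.FD.AV
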