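import Pool.Agent.H84.FD.AVc

/-! MP_1f2761, k = 2: asymptotics, and the three kinds of bad positions (row AVF). -/

set_option autoImplicit false

namespace Pool.FD.AV
open Finset Pool.K2 Pool.FD Pool.Agent.H24.FD MeasureTheory

/-- the final comparison of sizes -/
theorem asy (C : ℝ) (n : ℕ) (c δ : ℝ) (hc : 0 < c) (hδ : 0 < δ) :
    ∃ l₀ : ℕ, ∀ l : ℕ, l₀ ≤ l → C * (2 ^ l * ((l:ℝ) + 1) ^ n * (2:ℝ) ^ (-(c * (l:ℝ) ^ 2))) < δ := by
  have h1 := Real.tendsto_pow_mul_exp_neg_atTop_nhds_zero n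
  have h2 : Filter.Tendsto (fun l : ℕ => ((l:ℝ) + 1)) Filter.atTop Filter.atTop :=
    Filter.tendsto_atTop_add_const_right _ _ tendsto_natCast_atTop_atTop
  have h3 := h1.comp h2
  have hpos : 0 < δ / (|C| + 1) := by positivity
  have h4 := (h3.eventually (gt_mem_nhds hpos)).and (Filter.eventually_ge_atTop (⌈3 / (c * Real.log 2)⌉₊ + 1))
  rw [Filter.eventually_atTop] at h4
  obtain ⟨l₀, hl⟩ := h4
  refine ⟨l₀, fun l hl' => ?_⟩
  obtain ⟨h5, h6⟩ := hl l hl'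
  simp only [Function.comp] at h5
  have hlog : 0 < Real.log 2 := Real.log_pos (by norm_num)
  have hlog1 : Real.log 2 ≤ 1 := by
    have := Real.log_two_lt_d9
    linarith
  have hlr : 3 / (c * Real.log 2) ≤ l := by
    have := Nat.le_ceil (3 / (c * Real.log 2))
    have h7 : ((⌈3 / (c * Real.log 2)⌉₊ : ℕ) : ℝ) ≤ l := by exact_mod_cast (by omega)
    linarith
  have hl1 : (1:ℝ) ≤ l := by exact_mod_cast (by omega : 1 ≤ l)
  have h8 : 3 ≤ (c * Real.log 2) * l := by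
    rw [div_le_iff₀ (by positivity)] at hlr
    linarith
  have h9 : 2 * (l:ℝ) + 1 ≤ (c * Real.log 2) * (l:ℝ) ^ 2 := by nlinarith
  have e1 : (2:ℝ) ^ l ≤ Real.exp l := by
    have : (2:ℝ) ^ l = Real.exp (Real.log 2 * l) := by
      rw [mul_comm, Real.exp_nat_mul, Real.exp_log (by norm_num)]
    rw [this]
    apply Real.exp_le_exp.2
    nlinarith
  have e2 : (2:ℝ) ^ (-(c * (l:ℝ) ^ 2)) = Real.exp (-((c * Real.log 2) * (l:ℝ) ^ 2)) := by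
    rw [Real.rpow_def_of_pos (by norm_num)]
    congr 1
    ring
  have e3 : (2:ℝ) ^ l * (2:ℝ) ^ (-(c * (l:ℝ) ^ 2)) ≤ Real.exp (-((l:ℝ) + 1)) := by
    rw [e2]
    calc (2:ℝ) ^ l * Real.exp (-((c * Real.log 2) * (l:ℝ) ^ 2))
        ≤ Real.exp l * Real.exp (-((c * Real.log 2) * (l:ℝ) ^ 2)) :=
          mul_le_mul_of_nonneg_right e1 (Real.exp_pos _).le
      _ = Real.exp (l + -((c * Real.log 2) * (l:ℝ) ^ 2)) := (Real.exp_add _ _).symm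
      _ ≤ _ := Real.exp_le_exp.2 (by linarith)
  have e4 : (2:ℝ) ^ l * ((l:ℝ) + 1) ^ n * (2:ℝ) ^ (-(c * (l:ℝ) ^ 2)) ≤ ((l:ℝ) + 1) ^ n * Real.exp (-((l:ℝ) + 1)) := by
    have : 0 ≤ ((l:ℝ) + 1) ^ n := by positivity
    calc _ = ((l:ℝ) + 1) ^ n * ((2:ℝ) ^ l * (2:ℝ) ^ (-(c * (l:ℝ) ^ 2))) := by ring
      _ ≤ _ := mul_le_mul_of_nonneg_left e3 this
  have e5 : 0 ≤ (2:ℝ) ^ l * ((l:ℝ) + 1) ^ n * (2:ℝ) ^ (-(c * (l:ℝ) ^ 2)) := by positivity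
  have hC0 : 0 ≤ |C| := abs_nonneg C
  calc C * (2 ^ l * ((l:ℝ) + 1) ^ n * (2:ℝ) ^ (-(c * (l:ℝ) ^ 2)))
      ≤ |C| * (2 ^ l * ((l:ℝ) + 1) ^ n * (2:ℝ) ^ (-(c * (l:ℝ) ^ 2))) :=
        mul_le_mul_of_nonneg_right (le_abs_self C) e5
    _ ≤ (|C| + 1) * (2 ^ l * ((l:ℝ) + 1) ^ n * (2:ℝ) ^ (-(c * (l:ℝ) ^ 2))) :=
        mul_le_mul_of_nonneg_right (by linarith) e5
    _ ≤ (|C| + 1) * (((l:ℝ) + 1) ^ n * Real.exp (-((l:ℝ) + 1))) :=
        mul_le_mul_of_nonneg_left e4 (by positivity)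
    _ < (|C| + 1) * (δ / (|C| + 1)) := by
        apply mul_lt_mul_of_pos_left h5
        positivity
    _ = δ := by field_simp

/-- number of digits of a block -/
theorem tt_lt {q W J : ℕ} (hq : 2 ≤ q) (hW : W ≤ J) : tt q W J < W + 2 := by
  have h := (glz q W J hq hW 0 0).2.2.2.2.2.1.1
  by_contra hcon
  push Not at hcon
  have hq0 : (0:ℝ) < q := by exact_mod_cast (by omega : 0 < q)
  have hq2 : (2:ℝ) ≤ q := by exact_mod_cast hq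
  have h1 : (q:ℝ) ^ (W + 2) ≤ (q:ℝ) ^ tt q W J := pow_le_pow_right₀ (by linarith) hcon
  have h2 : (2:ℝ) ^ W ≤ (q:ℝ) ^ W := pow_le_pow_left₀ (by norm_num) hq2 _
  have h3 : (q:ℝ) ^ (W + 2) = (q:ℝ) ^ W * q * q := by ring
  have h4 : 0 < (q:ℝ) ^ W := by positivity
  nlinarith [mul_pos h4 hq0, mul_le_mul_of_nonneg_left h2 hq0.le]

theorem tt_pow {q W J : ℕ} (hq : 2 ≤ q) (hW : W ≤ J) : (q:ℝ) ^ tt q W J ≤ q * 2 ^ W :=
  (glz q W J hq hW 0 0).2.2.2.2.2.1.1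

/-- decay of a power of `q` above `t₁ ≥ θ l²` -/
theorem qdec {q i : ℕ} {θ c : ℝ} {l t₁ : ℕ} (hq : 2 ≤ q) (hc : 0 ≤ c) (ht : θ * (l:ℝ) ^ 2 ≤ t₁) (hi : t₁ < i) :
    (q:ℝ) ^ (-(c * i)) ≤ (2:ℝ) ^ (-((c * θ) * (l:ℝ) ^ 2)) := by
  have hq2 : (2:ℝ) ≤ q := by exact_mod_cast hq
  have hir : (t₁:ℝ) ≤ i := by exact_mod_cast hi.le
  have h0 : 0 ≤ c * i := by positivity
  calc (q:ℝ) ^ (-(c * i)) ≤ (2:ℝ) ^ (-(c * i)) :=
        Real.rpow_le_rpow_of_nonpos (by norm_num) hq2 (by linarith)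
    _ ≤ _ := by
        apply Real.rpow_le_rpow_of_exponent_le (by norm_num)
        have : c * (θ * (l:ℝ) ^ 2) ≤ c * i := mul_le_mul_of_nonneg_left (ht.trans hir) hc
        linarith

/-- size comparison for the shells of partial blocks -/
theorem szP {X δ N B E x y : ℝ} {l u : ℕ} (hl : (1:ℝ) ≤ l) (hu : (u:ℝ) ≤ l) (hX0 : 0 ≤ X) (hB : 0 < B) (hx : 0 ≤ x)
    (hE : E = x * B) (hxy : x ≤ y) (hN : N = l * (l * l + 2))
    (hasy : 32 * (10 * X) * (2 ^ l * ((l:ℝ) + 1) ^ 9 * y) < δ) :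
    10 * (X * (2 ^ l * (((l * u : ℕ) : ℝ) + l + 4)) * E) * (((l * l + 2) * (l * l + 2) : ℕ) : ℝ) < δ / N * B := by
  have hNp : 0 < N := by rw [hN]; positivity
  push_cast
  have e1 : (l:ℝ) * u + l + 4 ≤ 4 * ((l:ℝ) + 1) ^ 2 := by nlinarith
  have e2 : ((l:ℝ) * l + 2) * (l * l + 2) ≤ 4 * ((l:ℝ) + 1) ^ 4 := by
    have : (l:ℝ) * l + 2 ≤ 2 * ((l:ℝ) + 1) ^ 2 := by nlinarith
    calc _ ≤ (2 * ((l:ℝ) + 1) ^ 2) * (2 * ((l:ℝ) + 1) ^ 2) := mul_le_mul this this (by positivity) (by positivity)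
      _ = _ := by ring
  have e3 : N ≤ 2 * ((l:ℝ) + 1) ^ 3 := by
    rw [hN]; nlinarith [mul_nonneg (by linarith : (0:ℝ) ≤ l) (by linarith : (0:ℝ) ≤ l)]
  have step1 : 10 * (X * (2 ^ l * ((l:ℝ) * u + l + 4)) * x) *
      (((l:ℝ) * l + 2) * (l * l + 2)) * N < δ := by
    refine lt_of_le_of_lt ?_ hasy
    have f1 : (2:ℝ) ^ l * ((l:ℝ) * u + l + 4) * (((l:ℝ) * l + 2) * (l * l + 2)) * N * x ≤
        (2:ℝ) ^ l * (4 * ((l:ℝ) + 1) ^ 2) * (4 * ((l:ℝ) + 1) ^ 4) * (2 * ((l:ℝ) + 1) ^ 3) * y := by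
      gcongr
    calc _ = 10 * X * ((2:ℝ) ^ l * ((l:ℝ) * u + l + 4) * (((l:ℝ) * l + 2) * (l * l + 2)) * N * x) := by ring
      _ ≤ 10 * X * ((2:ℝ) ^ l * (4 * ((l:ℝ) + 1) ^ 2) * (4 * ((l:ℝ) + 1) ^ 4) * (2 * ((l:ℝ) + 1) ^ 3) * y) :=
          mul_le_mul_of_nonneg_left f1 (by positivity)
      _ = _ := by ring
  have h3 : 10 * (X * (2 ^ l * ((l:ℝ) * u + l + 4)) * x) * (((l:ℝ) * l + 2) * (l * l + 2)) < δ / N := by
    rw [lt_div_iff₀ hNp]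
    exact step1
  calc _ = (10 * (X * (2 ^ l * ((l:ℝ) * u + l + 4)) * x) * (((l:ℝ) * l + 2) * (l * l + 2))) * B := by rw [hE]; ring
    _ < δ / N * B := mul_lt_mul_of_pos_right h3 hB

/-- the event: shell `i` of the partial block `u` is large -/
def EvP (q m g t₁ l u i : ℕ) (wm : ℕ → ℕ → ℝ) (J : ℕ) : Prop :=
  i ≤ tt q (l * u) J ∧ (q : ℝ) ^ (-(534 / 1000 * i : ℝ)) <
        Fs q i (l * u) (pw l u) (q ^ tt q (l * u) J) (OMp q m g t₁ l l wm J u) (yy q (J - l * u))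

theorem evP1 {q m g t₁ l u i : ℕ} {wm : ℕ → ℕ → ℝ} (hq35 : q = 3 ∨ q = 5) (hm : 1 ≤ m) (hg : 1 ≤ g)
    (hwm : MK q m kk wm) {θ δ Ch : ℝ} (hδ : 0 < δ) (hCh : 1 ≤ Ch) (hl : 1 ≤ l)
    (hWt : Wt (l * u) (pw l u))
    (hHP : HP (l * u) (pw l u) hh (Ch * 2 ^ l * (((l * u : ℕ) : ℝ) + l + 4) * (2 : ℝ) ^ (-(hh * ((l * u : ℕ) : ℝ)))) 1)
    (ht₁ : θ * (l:ℝ) ^ 2 ≤ t₁) (htt : ∀ J, l * l ≤ J → t₁ + g ≤ tt q (l * l) J)
    (hasy : 32 * (10 * (6400 * (1 + 32 * (q : ℝ) ^ (kk * m)) ^ 2 * Ch * (q : ℝ) ^ 2)) *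
      (2 ^ l * ((l:ℝ) + 1) ^ 9 * (2:ℝ) ^ (-((28 / 10000 * θ) * (l:ℝ) ^ 2))) < δ)
    (hu : 1 ≤ u ∧ u < l) (hi : t₁ < i) {W a : ℕ} (hW : 0 < W) (ha : l * l ≤ a) :
    ∃ K₀ : ℕ, ∀ K ≥ K₀, ∀ J : ℕ, cnt K (fun n => EvP q m g t₁ l u i wm (J + a + n * W)) ≤
      δ / (l * (l * l + 2)) * K := by
  have hq : 2 ≤ q := by rcases hq35 with h | h <;> omega
  have hqr : (0:ℝ) < q := by exact_mod_cast (by omega : 0 < q)
  have hlr : (1:ℝ) ≤ l := by exact_mod_cast hl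
  have hul : l * u ≤ l * l := Nat.mul_le_mul_left _ hu.2.le
  have hN : (0:ℝ) < l * (l * l + 2) := by positivity
  refine mwc hq35 hW (range (l * l + 2) ×ˢ range (l * l + 2))
      (fun J' => (tt q (l * l) (J' + l * u), tt q (l * u) (J' + l * u))) (l * l - l * u) ?_
      (fun J' y => if i ≤ tt q (l * u) (J' + l * u) then
        Fs q i (l * u) (pw l u) (q ^ tt q (l * u) (J' + l * u)) (OMp q m g t₁ l l wm (J' + l * u) u) y else 0)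
      ?_ ?_ ?_
      (M := 6400 * (1 + 32 * (q : ℝ) ^ (kk * m)) ^ 2 * Ch * (q : ℝ) ^ 2 * (2 ^ l * (((l * u : ℕ) : ℝ) + l + 4)) * (q : ℝ) ^ (-(5368 / 10000 * i : ℝ)))
      (B := (q : ℝ) ^ (-(534 / 1000 * i : ℝ))) (del := δ / (l * (l * l + 2))) ?_ (by positivity) (by positivity) ?_
      (fun J n => J + a + n * W - l * u) (a - l * u) (by omega) (fun J n => by omega) _ ?_
  · intro J' hJ'
    rw [mem_product, mem_range, mem_range]
    constructor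
    · exact tt_lt hq (by omega)
    · exact lt_of_lt_of_le (tt_lt hq (by omega)) (by omega)
  · intro J' _ J'' _ h
    obtain ⟨h1, h2⟩ := Prod.mk.inj h
    have h3 : OMp q m g t₁ l l wm (J' + l * u) u = OMp q m g t₁ l l wm (J'' + l * u) u := by
      funext z₁ z₂
      unfold OMp
      rw [h1, h2]
    funext y
    simp only [h2, h3]
  · intro J' _
    by_cases hcase : i ≤ tt q (l * u) (J' + l * u)
    · simp only [if_pos hcase]
      exact (Pool.FD.fct (l * u) (pw l u) _ _ 0 q i).2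
    · simp only [if_neg hcase]
      exact continuous_const
  · intro J' _ y
    by_cases hcase : i ≤ tt q (l * u) (J' + l * u)
    · simp only [if_pos hcase]
      exact Fs_nonneg _ _ _ _ _ _ _
    · simp only [if_neg hcase]
      exact le_rfl
  · intro J' hJ'
    by_cases hcase : i ≤ tt q (l * u) (J' + l * u)
    · simp only [if_pos hcase]
      exact mean_Fs hq hWt (by linarith) (by positivity) hHP (tt_pow hq (by omega))
        (OMp_nonneg hq hm hg hu.2.le (htt _ (by omega)) hwm)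
        (reg_OMp hq hm hg hu.2.le (htt _ (by omega)) hwm) (by omega) hcase
    · simp only [if_neg hcase, intervalIntegral.integral_zero]
      positivity
  · rw [card_product, card_range]
    refine szP hlr (by exact_mod_cast hu.2.le) (by positivity) (by positivity) (by positivity)
      (x := (q : ℝ) ^ (-(28 / 10000 * i : ℝ))) ?_ (qdec hq (by norm_num) ht₁ hi) rfl hasy
    rw [← Real.rpow_add hqr]
    congr 1
    ring
  · intro J n hn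
    obtain ⟨h3, h4⟩ := hn
    have e2 : J + a + n * W - l * u + l * u = J + a + n * W := by omega
    rw [e2, if_pos h3]
    exact h4

/-- bad positions for the partial blocks -/
theorem evP (hps : HPSStmt) (glp : GLPStmt) (marg : MARGStmt) (q : ℕ) (hq35 : q = 3 ∨ q = 5) (m g : ℕ)
    (hm : 1 ≤ m) (hg : 1 ≤ g) (θ δ : ℝ) (hθ : 0 < θ) (hδ : 0 < δ) :
    ∃ l₀ : ℕ, ∀ l ≥ l₀, ∀ wm : ℕ → ℕ → ℝ, MK q m kk wm → ∀ t₁ : ℕ, θ * (l:ℝ) ^ 2 ≤ t₁ →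
    (∀ J, l * l ≤ J → t₁ + g ≤ tt q (l * l) J) → ∀ W a : ℕ, 0 < W → l * l ≤ a →
    ∃ K₀ : ℕ, ∀ K ≥ K₀, ∀ J : ℕ, cnt K (fun n => ¬ GoodP q m g t₁ l l wm (J + a + n * W)) ≤ δ * K := by
  have hq : 2 ≤ q := by rcases hq35 with h | h <;> omega
  obtain ⟨Ch, hCh, l1, hps⟩ := hps
  obtain ⟨l2, hmarg⟩ := marg eb (by unfold eb; norm_num)
  obtain ⟨l3, hasy⟩ := asy (32 * (10 * (6400 * (1 + 32 * (q : ℝ) ^ (kk * m)) ^ 2 * Ch * (q : ℝ) ^ 2))) 9 (28 / 10000 * θ) δ (by positivity) hδ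
  refine ⟨max (max l1 l2) (max l3 1), fun l hl wm hwm t₁ ht₁ htt W a hW ha => ?_⟩
  have hl1 : l1 ≤ l := (le_max_left _ _).trans ((le_max_left _ _).trans hl)
  have hl2 : l2 ≤ l := (le_max_right _ _).trans ((le_max_left _ _).trans hl)
  have hl3 : l3 ≤ l := (le_max_left _ _).trans ((le_max_right _ _).trans hl)
  have hl0 : 1 ≤ l := (le_max_right _ _).trans ((le_max_right _ _).trans hl)
  have hlr : (1:ℝ) ≤ l := by exact_mod_cast hl0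
  have hNp : (0:ℝ) < l * (l * l + 2) := by positivity
  have key : ∀ u ∈ Ico 1 l, ∀ i ∈ Ioc t₁ (l * l + 1), ∃ K₀ : ℕ, ∀ K ≥ K₀, ∀ J : ℕ,
      cnt K (fun n => EvP q m g t₁ l u i wm (J + a + n * W)) ≤ δ / (l * (l * l + 2)) * K := by
    intro u hu i hi
    rw [mem_Ico] at hu
    rw [mem_Ioc] at hi
    obtain ⟨hWt, -⟩ := glp l (hmarg l hl2) u
    have hHP := hps l hl1 u 1 le_rfl
    rw [Real.logb_one, add_zero] at hHP
    have hHP' : HP (l * u) (pw l u) hh (Ch * 2 ^ l * (((l * u : ℕ) : ℝ) + l + 4) * (2 : ℝ) ^ (-(hh * ((l * u : ℕ) : ℝ)))) 1 := by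
      push_cast
      exact hHP
    exact evP1 hq35 hm hg hwm hδ hCh hl0 hWt hHP' ht₁ htt (hasy l hl3) hu hi.1 hW ha
  obtain ⟨K₀, hK⟩ := un (Ico 1 l) (fun u J n => ∃ i ∈ Ioc t₁ (l * l + 1), EvP q m g t₁ l u i wm (J + a + n * W))
    ((Ioc t₁ (l * l + 1)).card * (δ / (l * (l * l + 2))))
    (fun u hu => un (Ioc t₁ (l * l + 1)) (fun i J n => EvP q m g t₁ l u i wm (J + a + n * W)) _ (key u hu))
  refine ⟨K₀, fun K hK' J => ?_⟩
  have hcard : ((Ico 1 l).card : ℝ) * (((Ioc t₁ (l * l + 1)).card : ℝ) * (δ / (l * (l * l + 2)))) ≤ δ := by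
    have c1 : ((Ico 1 l).card : ℝ) ≤ l := by
      rw [Nat.card_Ico]; exact_mod_cast Nat.sub_le _ _
    have c2 : ((Ioc t₁ (l * l + 1)).card : ℝ) ≤ l * l + 2 := by
      rw [Nat.card_Ioc]
      have : l * l + 1 - t₁ ≤ l * l + 2 := by omega
      exact_mod_cast this
    have c3 : ((Ico 1 l).card : ℝ) * ((Ioc t₁ (l * l + 1)).card : ℝ) ≤ l * (l * l + 2) :=
      mul_le_mul c1 c2 (by positivity) (by positivity)
    calc _ = (((Ico 1 l).card : ℝ) * ((Ioc t₁ (l * l + 1)).card : ℝ)) * (δ / (l * (l * l + 2))) := by ring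
      _ ≤ (l * (l * l + 2)) * (δ / (l * (l * l + 2))) := mul_le_mul_of_nonneg_right c3 (by positivity)
      _ = δ := by field_simp
  refine (cnt_mono fun n hn => ?_).trans ((hK K hK' J).trans (mul_le_mul_of_nonneg_right hcard (Nat.cast_nonneg K)))
  unfold GoodP at hn
  push Not at hn
  obtain ⟨u, hu, i, hi, h4⟩ := hn
  refine ⟨u, hu, i, ?_, ?_, h4⟩
  · rw [mem_Ioc] at hi ⊢
    refine ⟨hi.1, ?_⟩
    rw [mem_Ico] at hu
    have hul : l * u ≤ l * l := Nat.mul_le_mul_left _ hu.2.le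
    have := tt_lt (q := q) (W := l * u) (J := J + a + n * W) hq (by omega)
    omega
  · exact (mem_Ioc.1 hi).2

end Pool.FD.AV
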