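import Pool.Agent.H84.FD.AVd

/-! MP_1f2761, k = 2: bad positions of the types `D` and `C` (row AVF). -/

set_option autoImplicit false

namespace Pool.FD.AV
open Finset Pool.K2 Pool.FD Pool.Agent.H24.FD MeasureTheory

theorem mw1c {q : ℕ} (hq : q = 3 ∨ q = 5) {W : ℕ} (hW : 0 < W) {F : ℝ → ℝ} (hF : Continuous F)
    (h0 : ∀ y, 0 ≤ F y) {M B del : ℝ} (hM : ∫ y in (0 : ℝ)..1, F y ≤ M) (hB : 0 < B) (hd : 10 * M < del * B)
    (a : ℕ) (P : ℕ → ℕ → Prop) (hP : ∀ J n, P J n → B < F (yy q (J + a + n * W))) :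
    ∃ K₀ : ℕ, ∀ K ≥ K₀, ∀ J : ℕ, cnt K (P J) ≤ del * K := by
  obtain ⟨K₀, hK⟩ := mw1 hq hW hF h0 hM hB hd
  refine ⟨K₀, fun K hK' J => ?_⟩
  have h1 := hK K hK' (J + a)
  rw [cnt_eq] at h1
  exact (cnt_mono fun n hn => hP J n hn).trans h1

/-- one scale of `GoodD` -/
theorem evD1 {q l K : ℕ} (hq : q = 3 ∨ q = 5) {W : ℕ} (hW : 0 < W) {Cd del y : ℝ} (hCd : 0 ≤ Cd) (hK : 1 ≤ K)
    (hM : ∫ y in (0 : ℝ)..1, Dk (l * vv l K) (pw l (vv l K)) K y ≤ Cd * (K : ℝ) ^ (-(485 / 1000 : ℝ)))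
    (hy : (K:ℝ) ^ (-(5 / 1000 : ℝ)) ≤ y) (hd : 10 * Cd * y < del) (a : ℕ) :
    ∃ K₀ : ℕ, ∀ N ≥ K₀, ∀ J : ℕ, cnt N (fun n => (K : ℝ) ^ (-(48 / 100 : ℝ)) <
      Dk (l * vv l K) (pw l (vv l K)) K (yy q (J + a + n * W))) ≤ del * N := by
  have hKr : (0:ℝ) < K := by exact_mod_cast hK
  refine mw1c hq hW (Pool.FD.din _ _ _).1 (fun y => Dk_nonneg _ _ _ y) hM (by positivity) ?_ a _ (fun J n h => h)
  have e : (K:ℝ) ^ (-(485 / 1000 : ℝ)) = (K:ℝ) ^ (-(5 / 1000 : ℝ)) * (K : ℝ) ^ (-(48 / 100 : ℝ)) := by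
    rw [← Real.rpow_add hKr]
    norm_num
  rw [e]
  have hB : 0 < (K : ℝ) ^ (-(48 / 100 : ℝ)) := by positivity
  have h1 : 10 * Cd * (K:ℝ) ^ (-(5 / 1000 : ℝ)) < del :=
    lt_of_le_of_lt (mul_le_mul_of_nonneg_left hy (by positivity)) hd
  calc 10 * (Cd * ((K:ℝ) ^ (-(5 / 1000 : ℝ)) * (K : ℝ) ^ (-(48 / 100 : ℝ))))
      = (10 * Cd * (K:ℝ) ^ (-(5 / 1000 : ℝ))) * (K : ℝ) ^ (-(48 / 100 : ℝ)) := by ring
    _ < del * (K : ℝ) ^ (-(48 / 100 : ℝ)) := mul_lt_mul_of_pos_right h1 hB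

/-- bad target positions -/
theorem evD (dkm : DKMStmt) (q : ℕ) (hq35 : q = 3 ∨ q = 5) (c : ℕ) (θ δ : ℝ) (hθ : 0 < θ) (hδ : 0 < δ) :
    ∃ l₀ : ℕ, ∀ l ≥ l₀, ∀ t₁ : ℕ, θ * (l:ℝ) ^ 2 ≤ t₁ → ∀ W a : ℕ, 0 < W →
    ∃ K₀ : ℕ, ∀ K ≥ K₀, ∀ J : ℕ, cnt K (fun n => ¬ GoodD q t₁ l l c (J + a + n * W) (4 ^ (l * l))) ≤ δ * K := by
  have hq : 2 ≤ q := by rcases hq35 with h | h <;> omega
  have hqr : (0:ℝ) < q := by exact_mod_cast (by omega : 0 < q)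
  have hq1 : (1:ℝ) ≤ q := by exact_mod_cast (by omega : 1 ≤ q)
  obtain ⟨Cd, hCd, l1, dkm⟩ := dkm
  obtain ⟨l2, h2⟩ := asy (10 * Cd * (2 * (c + 3))) 2 (5 / 1000 * θ) δ (by positivity) hδ
  obtain ⟨l3, h3⟩ := asy (10 * Cd * (2 * (c + 3))) 2 (10 / 1000) δ (by norm_num) hδ
  refine ⟨max (max l1 l2) (max l3 1), fun l hl t₁ ht₁ W a hW => ?_⟩
  have hl1 : l1 ≤ l := (le_max_left _ _).trans ((le_max_left _ _).trans hl)
  have hl2 : l2 ≤ l := (le_max_right _ _).trans ((le_max_left _ _).trans hl)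
  have hl3 : l3 ≤ l := (le_max_left _ _).trans ((le_max_right _ _).trans hl)
  have hl0 : 1 ≤ l := (le_max_right _ _).trans ((le_max_right _ _).trans hl)
  have hlr : (1:ℝ) ≤ l := by exact_mod_cast hl0
  have hNp : (0:ℝ) < 2 * (l * l * c + 3) := by positivity
  have hN : 2 * ((l:ℝ) * l * c + 3) ≤ (2 * (c + 3)) * ((l:ℝ) + 1) ^ 2 := by
    have : (0:ℝ) ≤ c := Nat.cast_nonneg c
    nlinarith [mul_nonneg this (by linarith : (0:ℝ) ≤ l)]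
  have h2l : (1:ℝ) ≤ 2 ^ l := one_le_pow₀ (by norm_num)
  have sz : ∀ y : ℝ, 0 ≤ y → 10 * Cd * (2 * (c + 3)) * (2 ^ l * ((l:ℝ) + 1) ^ 2 * y) < δ →
      10 * Cd * y < δ / (2 * (l * l * c + 3)) := by
    intro y hy h
    rw [lt_div_iff₀ hNp]
    refine lt_of_le_of_lt ?_ h
    calc 10 * Cd * y * (2 * (l * l * c + 3)) ≤ 10 * Cd * y * ((2 * (c + 3)) * ((l:ℝ) + 1) ^ 2) :=
          mul_le_mul_of_nonneg_left hN (by positivity)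
      _ = (10 * Cd * (2 * (c + 3)) * (((l:ℝ) + 1) ^ 2 * y)) * 1 := by ring
      _ ≤ (10 * Cd * (2 * (c + 3)) * (((l:ℝ) + 1) ^ 2 * y)) * 2 ^ l := mul_le_mul_of_nonneg_left h2l (by positivity)
      _ = _ := by ring
  have key1 : ∀ i ∈ range (l * l * c + 3), ∃ K₀ : ℕ, ∀ K ≥ K₀, ∀ J : ℕ, cnt K (fun n => t₁ < i ∧
      ((q ^ i : ℕ) : ℝ) ^ (-(48 / 100 : ℝ)) <
      Dk (l * vv l (q ^ i)) (pw l (vv l (q ^ i))) (q ^ i) (yy q (J + a + n * W))) ≤ δ / (2 * (l * l * c + 3)) * K := by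
    intro i _
    by_cases hi : t₁ < i
    · obtain ⟨K₀, hK⟩ := evD1 (q := q) (l := l) (K := q ^ i) hq35 hW (by linarith) (Nat.one_le_pow _ _ (by omega))
        (dkm l hl1 (q ^ i) (Nat.one_le_pow _ _ (by omega)))
        (y := (2:ℝ) ^ (-((5 / 1000 * θ) * (l:ℝ) ^ 2)))
        (by
          push_cast
          rw [← Real.rpow_natCast, ← Real.rpow_mul hqr.le]
          have := qdec (c := 5 / 1000) hq (by norm_num) ht₁ hi
          rwa [show (i:ℝ) * -(5 / 1000 : ℝ) = -(5 / 1000 * i) by ring])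
        (sz _ (by positivity) (h2 l hl2)) a
      exact ⟨K₀, fun K hK' J => (cnt_mono fun n hn => hn.2).trans (hK K hK' J)⟩
    · refine ⟨0, fun K _ J => ?_⟩
      have : cnt K (fun n => t₁ < i ∧ ((q ^ i : ℕ) : ℝ) ^ (-(48 / 100 : ℝ)) <
        Dk (l * vv l (q ^ i)) (pw l (vv l (q ^ i))) (q ^ i) (yy q (J + a + n * W))) ≤ cnt K (fun _ => False) :=
        cnt_mono fun n hn => hi hn.1
      refine this.trans ?_
      rw [← cnt_eq (iP := fun _ => instDecidableFalse)]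
      simp only [filter_false, card_empty, Nat.cast_zero]
      positivity
  have key2 : ∀ i ∈ range (l * l * c + 3), ∃ K₀ : ℕ, ∀ K ≥ K₀, ∀ J : ℕ, cnt K (fun n =>
      ((2 * 4 ^ (l * l) * q ^ i : ℕ) : ℝ) ^ (-(48 / 100 : ℝ)) <
      Dk (l * vv l (2 * 4 ^ (l * l) * q ^ i)) (pw l (vv l (2 * 4 ^ (l * l) * q ^ i))) (2 * 4 ^ (l * l) * q ^ i)
        (yy q (J + a + n * W))) ≤ δ / (2 * (l * l * c + 3)) * K := by
    intro i _
    have hK1 : 1 ≤ 2 * 4 ^ (l * l) * q ^ i := Nat.mul_pos (by positivity) (pow_pos (by omega) _)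
    refine evD1 (q := q) (l := l) (K := 2 * 4 ^ (l * l) * q ^ i) hq35 hW (by linarith) hK1
        (dkm l hl1 _ hK1) (y := (2:ℝ) ^ (-((10 / 1000) * (l:ℝ) ^ 2))) ?_ (sz _ (by positivity) (h3 l hl3)) a
    have hb : (2:ℝ) ^ (2 * (l:ℝ) ^ 2) ≤ ((2 * 4 ^ (l * l) * q ^ i : ℕ) : ℝ) := by
      have e1 : (2:ℝ) ^ (2 * (l:ℝ) ^ 2) = (4:ℝ) ^ (l * l) := by
        rw [show (2:ℝ) * (l:ℝ) ^ 2 = ((2 * (l * l) : ℕ) : ℝ) by push_cast; ring, Real.rpow_natCast, pow_mul]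
        norm_num
      push_cast
      rw [e1]
      have h5 : (1:ℝ) ≤ (q:ℝ) ^ i := one_le_pow₀ hq1
      have h6 : (0:ℝ) < (4:ℝ) ^ (l * l) := by positivity
      nlinarith
    calc ((2 * 4 ^ (l * l) * q ^ i : ℕ) : ℝ) ^ (-(5 / 1000 : ℝ)) ≤ ((2:ℝ) ^ (2 * (l:ℝ) ^ 2)) ^ (-(5 / 1000 : ℝ)) :=
          Real.rpow_le_rpow_of_nonpos (by positivity) hb (by norm_num)
      _ = _ := by
          rw [← Real.rpow_mul (by norm_num)]
          congr 1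
          ring
  obtain ⟨K₀, hK⟩ := un2 _ _ _ _ (un (range (l * l * c + 3)) (fun i J n => t₁ < i ∧
      ((q ^ i : ℕ) : ℝ) ^ (-(48 / 100 : ℝ)) <
      Dk (l * vv l (q ^ i)) (pw l (vv l (q ^ i))) (q ^ i) (yy q (J + a + n * W))) _ key1)
    (un (range (l * l * c + 3)) (fun i J n =>
      ((2 * 4 ^ (l * l) * q ^ i : ℕ) : ℝ) ^ (-(48 / 100 : ℝ)) <
      Dk (l * vv l (2 * 4 ^ (l * l) * q ^ i)) (pw l (vv l (2 * 4 ^ (l * l) * q ^ i))) (2 * 4 ^ (l * l) * q ^ i)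
        (yy q (J + a + n * W))) _ key2)
  refine ⟨K₀, fun K hK' J => ?_⟩
  have hcard : (((range (l * l * c + 3)).card : ℝ) * (δ / (2 * (l * l * c + 3))) +
      ((range (l * l * c + 3)).card : ℝ) * (δ / (2 * (l * l * c + 3)))) = δ := by
    rw [card_range]
    push_cast
    field_simp
    ring
  refine (cnt_mono fun n hn => ?_).trans ((hK K hK' J).trans (by rw [hcard]))
  unfold GoodD at hn
  push Not at hn
  obtain ⟨i, hi, h4⟩ := hn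
  have him : i ∈ range (l * l * c + 3) := mem_range.2 (by omega)
  by_cases h5 : t₁ < i ∧ ((q ^ i : ℕ) : ℝ) ^ (-(48 / 100 : ℝ)) <
      Dk (l * vv l (q ^ i)) (pw l (vv l (q ^ i))) (q ^ i) (yy q (J + a + n * W))
  · exact Or.inl ⟨i, him, h5⟩
  · refine Or.inr ⟨i, him, h4 fun h6 => ?_⟩
    by_contra h7
    exact h5 ⟨h6, not_le.1 h7⟩

end Pool.FD.AV
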